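import Mathlib

/-!
Positive definiteness of the Legendre kernels of degrees 1,2,3,4,5,9 on the unit sphere of
three-space, by explicit addition formulas.
-/

set_option autoImplicit false
set_option maxHeartbeats 4000000
set_option linter.unusedVariables false

namespace Pool.Agent.Kiss47

/-- The complex number made of the first two coordinates. -/
noncomputable def cw (x : Fin 3 → ℝ) : ℂ := ⟨x 0, x 1⟩

/-- `Re ((w_x * conj w_y)^m)`. -/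
noncomputable def rr (x y : Fin 3 → ℝ) (m : ℕ) : ℝ :=
  ((cw x * (starRingEnd ℂ) (cw y)) ^ m).re

theorem rr_zero (x y : Fin 3 → ℝ) : rr x y 0 = 1 := by simp [rr]

theorem rr_one (x y : Fin 3 → ℝ) : rr x y 1 = x 0 * y 0 + x 1 * y 1 := by
  simp [rr, cw]

theorem rr_rec (x y : Fin 3 → ℝ) (m : ℕ) :
    rr x y (m + 2) = 2 * (x 0 * y 0 + x 1 * y 1) * rr x y (m + 1)
      - (x 0 ^ 2 + x 1 ^ 2) * (y 0 ^ 2 + y 1 ^ 2) * rr x y m := by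
  have key : (cw x * (starRingEnd ℂ) (cw y)) ^ 2
      = ((2 * (x 0 * y 0 + x 1 * y 1) : ℝ) : ℂ) * (cw x * (starRingEnd ℂ) (cw y))
        - (((x 0 ^ 2 + x 1 ^ 2) * (y 0 ^ 2 + y 1 ^ 2) : ℝ) : ℂ) := by
    apply Complex.ext
    · simp [cw, pow_two]; ring
    · simp [cw, pow_two]; ring
  have h2 : (cw x * (starRingEnd ℂ) (cw y)) ^ (m + 2)
      = ((2 * (x 0 * y 0 + x 1 * y 1) : ℝ) : ℂ) * (cw x * (starRingEnd ℂ) (cw y)) ^ (m + 1)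
        - (((x 0 ^ 2 + x 1 ^ 2) * (y 0 ^ 2 + y 1 ^ 2) : ℝ) : ℂ)
          * (cw x * (starRingEnd ℂ) (cw y)) ^ m := by
    rw [pow_add _ m 2, key, pow_succ]; ring
  unfold rr
  rw [h2, Complex.sub_re, Complex.re_ofReal_mul, Complex.re_ofReal_mul]

theorem rr_pos (T : Finset (Fin 3 → ℝ)) (h : (Fin 3 → ℝ) → ℝ) (m : ℕ) :
    0 ≤ ∑ x ∈ T, ∑ y ∈ T, h x * h y * rr x y m := by
  have e : ∑ x ∈ T, ∑ y ∈ T, h x * h y * rr x y m
      = ((∑ x ∈ T, (h x : ℂ) * cw x ^ m) *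
          (starRingEnd ℂ) (∑ y ∈ T, (h y : ℂ) * cw y ^ m)).re := by
    rw [map_sum, Finset.sum_mul_sum, Complex.re_sum]
    refine Finset.sum_congr rfl fun x _ => ?_
    rw [Complex.re_sum]
    refine Finset.sum_congr rfl fun y _ => ?_
    have : (h x : ℂ) * cw x ^ m * (starRingEnd ℂ) ((h y : ℂ) * cw y ^ m)
        = ((h x * h y : ℝ) : ℂ) * (cw x * (starRingEnd ℂ) (cw y)) ^ m := by
      rw [map_mul, map_pow, Complex.conj_ofReal, mul_pow]; push_cast; ring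
    rw [this, Complex.re_ofReal_mul]; rfl
  rw [e, Complex.mul_conj, Complex.ofReal_re]
  exact Complex.normSq_nonneg _

theorem rr_pos' (T : Finset (Fin 3 → ℝ)) (a : ℝ) (ha : 0 ≤ a) (h : (Fin 3 → ℝ) → ℝ) (m : ℕ) :
    0 ≤ ∑ x ∈ T, ∑ y ∈ T, a * (h x * h y * rr x y m) := by
  have := rr_pos T h m
  simp_rw [← Finset.mul_sum]
  exact mul_nonneg ha this

/-- The standard inner product in coordinates. -/
def dt (x y : Fin 3 → ℝ) : ℝ := x 0 * y 0 + x 1 * y 1 + x 2 * y 2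

/-- Unit vectors in coordinates. -/
def IsUnit3 (x : Fin 3 → ℝ) : Prop := x 0 ^ 2 + x 1 ^ 2 + x 2 ^ 2 = 1

/-- Legendre polynomial of degree 1. -/
noncomputable def P1 (t : ℝ) : ℝ := (1)*t

/-- auxiliary polynomial -/
noncomputable def q1_0 (z : ℝ) : ℝ := (1)*z

/-- auxiliary polynomial -/
noncomputable def q1_1 (z : ℝ) : ℝ := (1)

theorem add1 (u v t r0 r1 : ℝ) (h0 : r0 = 1) (h1 : r1 = t)
    : P1 (t + u * v) = (1) * (q1_0 u * q1_0 v * r0) + (1) * (q1_1 u * q1_1 v * r1) := by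
  subst h0 h1
  simp only [P1, q1_0, q1_1]
  ring

theorem pos1 (T : Finset (Fin 3 → ℝ)) (hT : ∀ x ∈ T, IsUnit3 x) :
    0 ≤ ∑ x ∈ T, ∑ y ∈ T, P1 (dt x y) := by
  have e : ∑ x ∈ T, ∑ y ∈ T, P1 (dt x y)
      = ∑ x ∈ T, ∑ y ∈ T, (1 : ℝ) * (q1_0 (x 2) * q1_0 (y 2) * rr x y 0)
        + ∑ x ∈ T, ∑ y ∈ T, (1 : ℝ) * (q1_1 (x 2) * q1_1 (y 2) * rr x y 1) := by
    simp only [← Finset.sum_add_distrib]
    refine Finset.sum_congr rfl fun x hx => Finset.sum_congr rfl fun y hy => ?_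
    have hx1 := hT x hx
    have hy1 := hT y hy
    unfold IsUnit3 at hx1 hy1
    have ex : x 0 ^ 2 + x 1 ^ 2 = 1 - x 2 ^ 2 := by linarith
    have ey : y 0 ^ 2 + y 1 ^ 2 = 1 - y 2 ^ 2 := by linarith
    have hr : ∀ m, rr x y (m + 2) = 2 * (x 0 * y 0 + x 1 * y 1) * rr x y (m + 1)
      - (1 - x 2 ^ 2) * (1 - y 2 ^ 2) * rr x y m := by
      intro m; rw [rr_rec, ex, ey]
    have := add1 (x 2) (y 2) (x 0 * y 0 + x 1 * y 1) (rr x y 0) (rr x y 1)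
      (rr_zero x y) (rr_one x y)
    rw [dt, this]
  rw [e]
  have p0 := rr_pos' T (1) (by norm_num) (fun x => q1_0 (x 2)) 0
  have p1 := rr_pos' T (1) (by norm_num) (fun x => q1_1 (x 2)) 1
  linarith

/-- Legendre polynomial of degree 2. -/
noncomputable def P2 (t : ℝ) : ℝ := (-1/2) + (3/2)*t^2

/-- auxiliary polynomial -/
noncomputable def q2_0 (z : ℝ) : ℝ := (-1/2) + (3/2)*z^2

/-- auxiliary polynomial -/
noncomputable def q2_1 (z : ℝ) : ℝ := (3)*z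

/-- auxiliary polynomial -/
noncomputable def q2_2 (z : ℝ) : ℝ := (3)

theorem add2 (u v t r0 r1 r2 : ℝ) (h0 : r0 = 1) (h1 : r1 = t)
    (h2 : r2 = 2 * t * r1 - (1 - u ^ 2) * (1 - v ^ 2) * r0)
    : P2 (t + u * v) = (1) * (q2_0 u * q2_0 v * r0) + (1/3) * (q2_1 u * q2_1 v * r1) + (1/12) * (q2_2 u * q2_2 v * r2) := by
  subst h0 h1 h2
  simp only [P2, q2_0, q2_1, q2_2]
  ring

theorem pos2 (T : Finset (Fin 3 → ℝ)) (hT : ∀ x ∈ T, IsUnit3 x) :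
    0 ≤ ∑ x ∈ T, ∑ y ∈ T, P2 (dt x y) := by
  have e : ∑ x ∈ T, ∑ y ∈ T, P2 (dt x y)
      = ∑ x ∈ T, ∑ y ∈ T, (1 : ℝ) * (q2_0 (x 2) * q2_0 (y 2) * rr x y 0)
        + ∑ x ∈ T, ∑ y ∈ T, (1/3 : ℝ) * (q2_1 (x 2) * q2_1 (y 2) * rr x y 1)
        + ∑ x ∈ T, ∑ y ∈ T, (1/12 : ℝ) * (q2_2 (x 2) * q2_2 (y 2) * rr x y 2) := by
    simp only [← Finset.sum_add_distrib]
    refine Finset.sum_congr rfl fun x hx => Finset.sum_congr rfl fun y hy => ?_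
    have hx1 := hT x hx
    have hy1 := hT y hy
    unfold IsUnit3 at hx1 hy1
    have ex : x 0 ^ 2 + x 1 ^ 2 = 1 - x 2 ^ 2 := by linarith
    have ey : y 0 ^ 2 + y 1 ^ 2 = 1 - y 2 ^ 2 := by linarith
    have hr : ∀ m, rr x y (m + 2) = 2 * (x 0 * y 0 + x 1 * y 1) * rr x y (m + 1)
      - (1 - x 2 ^ 2) * (1 - y 2 ^ 2) * rr x y m := by
      intro m; rw [rr_rec, ex, ey]
    have := add2 (x 2) (y 2) (x 0 * y 0 + x 1 * y 1) (rr x y 0) (rr x y 1) (rr x y 2)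
      (rr_zero x y) (rr_one x y) (hr 0)
    rw [dt, this]
  rw [e]
  have p0 := rr_pos' T (1) (by norm_num) (fun x => q2_0 (x 2)) 0
  have p1 := rr_pos' T (1/3) (by norm_num) (fun x => q2_1 (x 2)) 1
  have p2 := rr_pos' T (1/12) (by norm_num) (fun x => q2_2 (x 2)) 2
  linarith

/-- Legendre polynomial of degree 3. -/
noncomputable def P3 (t : ℝ) : ℝ := (-3/2)*t + (5/2)*t^3

/-- auxiliary polynomial -/
noncomputable def q3_0 (z : ℝ) : ℝ := (-3/2)*z + (5/2)*z^3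

/-- auxiliary polynomial -/
noncomputable def q3_1 (z : ℝ) : ℝ := (-3/2) + (15/2)*z^2

/-- auxiliary polynomial -/
noncomputable def q3_2 (z : ℝ) : ℝ := (15)*z

/-- auxiliary polynomial -/
noncomputable def q3_3 (z : ℝ) : ℝ := (15)

theorem add3 (u v t r0 r1 r2 r3 : ℝ) (h0 : r0 = 1) (h1 : r1 = t)
    (h2 : r2 = 2 * t * r1 - (1 - u ^ 2) * (1 - v ^ 2) * r0)
    (h3 : r3 = 2 * t * r2 - (1 - u ^ 2) * (1 - v ^ 2) * r1)
    : P3 (t + u * v) = (1) * (q3_0 u * q3_0 v * r0) + (1/6) * (q3_1 u * q3_1 v * r1) + (1/60) * (q3_2 u * q3_2 v * r2) + (1/360) * (q3_3 u * q3_3 v * r3) := by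
  subst h0 h1 h2 h3
  simp only [P3, q3_0, q3_1, q3_2, q3_3]
  ring

theorem pos3 (T : Finset (Fin 3 → ℝ)) (hT : ∀ x ∈ T, IsUnit3 x) :
    0 ≤ ∑ x ∈ T, ∑ y ∈ T, P3 (dt x y) := by
  have e : ∑ x ∈ T, ∑ y ∈ T, P3 (dt x y)
      = ∑ x ∈ T, ∑ y ∈ T, (1 : ℝ) * (q3_0 (x 2) * q3_0 (y 2) * rr x y 0)
        + ∑ x ∈ T, ∑ y ∈ T, (1/6 : ℝ) * (q3_1 (x 2) * q3_1 (y 2) * rr x y 1)
        + ∑ x ∈ T, ∑ y ∈ T, (1/60 : ℝ) * (q3_2 (x 2) * q3_2 (y 2) * rr x y 2)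
        + ∑ x ∈ T, ∑ y ∈ T, (1/360 : ℝ) * (q3_3 (x 2) * q3_3 (y 2) * rr x y 3) := by
    simp only [← Finset.sum_add_distrib]
    refine Finset.sum_congr rfl fun x hx => Finset.sum_congr rfl fun y hy => ?_
    have hx1 := hT x hx
    have hy1 := hT y hy
    unfold IsUnit3 at hx1 hy1
    have ex : x 0 ^ 2 + x 1 ^ 2 = 1 - x 2 ^ 2 := by linarith
    have ey : y 0 ^ 2 + y 1 ^ 2 = 1 - y 2 ^ 2 := by linarith
    have hr : ∀ m, rr x y (m + 2) = 2 * (x 0 * y 0 + x 1 * y 1) * rr x y (m + 1)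
      - (1 - x 2 ^ 2) * (1 - y 2 ^ 2) * rr x y m := by
      intro m; rw [rr_rec, ex, ey]
    have := add3 (x 2) (y 2) (x 0 * y 0 + x 1 * y 1) (rr x y 0) (rr x y 1) (rr x y 2) (rr x y 3)
      (rr_zero x y) (rr_one x y) (hr 0) (hr 1)
    rw [dt, this]
  rw [e]
  have p0 := rr_pos' T (1) (by norm_num) (fun x => q3_0 (x 2)) 0
  have p1 := rr_pos' T (1/6) (by norm_num) (fun x => q3_1 (x 2)) 1
  have p2 := rr_pos' T (1/60) (by norm_num) (fun x => q3_2 (x 2)) 2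
  have p3 := rr_pos' T (1/360) (by norm_num) (fun x => q3_3 (x 2)) 3
  linarith

/-- Legendre polynomial of degree 4. -/
noncomputable def P4 (t : ℝ) : ℝ := (3/8) + (-15/4)*t^2 + (35/8)*t^4

/-- auxiliary polynomial -/
noncomputable def q4_0 (z : ℝ) : ℝ := (3/8) + (-15/4)*z^2 + (35/8)*z^4

/-- auxiliary polynomial -/
noncomputable def q4_1 (z : ℝ) : ℝ := (-15/2)*z + (35/2)*z^3

/-- auxiliary polynomial -/
noncomputable def q4_2 (z : ℝ) : ℝ := (-15/2) + (105/2)*z^2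

/-- auxiliary polynomial -/
noncomputable def q4_3 (z : ℝ) : ℝ := (105)*z

/-- auxiliary polynomial -/
noncomputable def q4_4 (z : ℝ) : ℝ := (105)

theorem add4 (u v t r0 r1 r2 r3 r4 : ℝ) (h0 : r0 = 1) (h1 : r1 = t)
    (h2 : r2 = 2 * t * r1 - (1 - u ^ 2) * (1 - v ^ 2) * r0)
    (h3 : r3 = 2 * t * r2 - (1 - u ^ 2) * (1 - v ^ 2) * r1)
    (h4 : r4 = 2 * t * r3 - (1 - u ^ 2) * (1 - v ^ 2) * r2)
    : P4 (t + u * v) = (1) * (q4_0 u * q4_0 v * r0) + (1/10) * (q4_1 u * q4_1 v * r1) + (1/180) * (q4_2 u * q4_2 v * r2) + (1/2520) * (q4_3 u * q4_3 v * r3) + (1/20160) * (q4_4 u * q4_4 v * r4) := by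
  subst h0 h1 h2 h3 h4
  simp only [P4, q4_0, q4_1, q4_2, q4_3, q4_4]
  ring

theorem pos4 (T : Finset (Fin 3 → ℝ)) (hT : ∀ x ∈ T, IsUnit3 x) :
    0 ≤ ∑ x ∈ T, ∑ y ∈ T, P4 (dt x y) := by
  have e : ∑ x ∈ T, ∑ y ∈ T, P4 (dt x y)
      = ∑ x ∈ T, ∑ y ∈ T, (1 : ℝ) * (q4_0 (x 2) * q4_0 (y 2) * rr x y 0)
        + ∑ x ∈ T, ∑ y ∈ T, (1/10 : ℝ) * (q4_1 (x 2) * q4_1 (y 2) * rr x y 1)
        + ∑ x ∈ T, ∑ y ∈ T, (1/180 : ℝ) * (q4_2 (x 2) * q4_2 (y 2) * rr x y 2)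
        + ∑ x ∈ T, ∑ y ∈ T, (1/2520 : ℝ) * (q4_3 (x 2) * q4_3 (y 2) * rr x y 3)
        + ∑ x ∈ T, ∑ y ∈ T, (1/20160 : ℝ) * (q4_4 (x 2) * q4_4 (y 2) * rr x y 4) := by
    simp only [← Finset.sum_add_distrib]
    refine Finset.sum_congr rfl fun x hx => Finset.sum_congr rfl fun y hy => ?_
    have hx1 := hT x hx
    have hy1 := hT y hy
    unfold IsUnit3 at hx1 hy1
    have ex : x 0 ^ 2 + x 1 ^ 2 = 1 - x 2 ^ 2 := by linarith
    have ey : y 0 ^ 2 + y 1 ^ 2 = 1 - y 2 ^ 2 := by linarith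
    have hr : ∀ m, rr x y (m + 2) = 2 * (x 0 * y 0 + x 1 * y 1) * rr x y (m + 1)
      - (1 - x 2 ^ 2) * (1 - y 2 ^ 2) * rr x y m := by
      intro m; rw [rr_rec, ex, ey]
    have := add4 (x 2) (y 2) (x 0 * y 0 + x 1 * y 1) (rr x y 0) (rr x y 1) (rr x y 2) (rr x y 3) (rr x y 4)
      (rr_zero x y) (rr_one x y) (hr 0) (hr 1) (hr 2)
    rw [dt, this]
  rw [e]
  have p0 := rr_pos' T (1) (by norm_num) (fun x => q4_0 (x 2)) 0
  have p1 := rr_pos' T (1/10) (by norm_num) (fun x => q4_1 (x 2)) 1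
  have p2 := rr_pos' T (1/180) (by norm_num) (fun x => q4_2 (x 2)) 2
  have p3 := rr_pos' T (1/2520) (by norm_num) (fun x => q4_3 (x 2)) 3
  have p4 := rr_pos' T (1/20160) (by norm_num) (fun x => q4_4 (x 2)) 4
  linarith

/-- Legendre polynomial of degree 5. -/
noncomputable def P5 (t : ℝ) : ℝ := (15/8)*t + (-35/4)*t^3 + (63/8)*t^5

/-- auxiliary polynomial -/
noncomputable def q5_0 (z : ℝ) : ℝ := (15/8)*z + (-35/4)*z^3 + (63/8)*z^5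

/-- auxiliary polynomial -/
noncomputable def q5_1 (z : ℝ) : ℝ := (15/8) + (-105/4)*z^2 + (315/8)*z^4

/-- auxiliary polynomial -/
noncomputable def q5_2 (z : ℝ) : ℝ := (-105/2)*z + (315/2)*z^3

/-- auxiliary polynomial -/
noncomputable def q5_3 (z : ℝ) : ℝ := (-105/2) + (945/2)*z^2

/-- auxiliary polynomial -/
noncomputable def q5_4 (z : ℝ) : ℝ := (945)*z

/-- auxiliary polynomial -/
noncomputable def q5_5 (z : ℝ) : ℝ := (945)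

theorem add5 (u v t r0 r1 r2 r3 r4 r5 : ℝ) (h0 : r0 = 1) (h1 : r1 = t)
    (h2 : r2 = 2 * t * r1 - (1 - u ^ 2) * (1 - v ^ 2) * r0)
    (h3 : r3 = 2 * t * r2 - (1 - u ^ 2) * (1 - v ^ 2) * r1)
    (h4 : r4 = 2 * t * r3 - (1 - u ^ 2) * (1 - v ^ 2) * r2)
    (h5 : r5 = 2 * t * r4 - (1 - u ^ 2) * (1 - v ^ 2) * r3)
    : P5 (t + u * v) = (1) * (q5_0 u * q5_0 v * r0) + (1/15) * (q5_1 u * q5_1 v * r1) + (1/420) * (q5_2 u * q5_2 v * r2) + (1/10080) * (q5_3 u * q5_3 v * r3) + (1/181440) * (q5_4 u * q5_4 v * r4) + (1/1814400) * (q5_5 u * q5_5 v * r5) := by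
  subst h0 h1 h2 h3 h4 h5
  simp only [P5, q5_0, q5_1, q5_2, q5_3, q5_4, q5_5]
  ring

theorem pos5 (T : Finset (Fin 3 → ℝ)) (hT : ∀ x ∈ T, IsUnit3 x) :
    0 ≤ ∑ x ∈ T, ∑ y ∈ T, P5 (dt x y) := by
  have e : ∑ x ∈ T, ∑ y ∈ T, P5 (dt x y)
      = ∑ x ∈ T, ∑ y ∈ T, (1 : ℝ) * (q5_0 (x 2) * q5_0 (y 2) * rr x y 0)
        + ∑ x ∈ T, ∑ y ∈ T, (1/15 : ℝ) * (q5_1 (x 2) * q5_1 (y 2) * rr x y 1)
        + ∑ x ∈ T, ∑ y ∈ T, (1/420 : ℝ) * (q5_2 (x 2) * q5_2 (y 2) * rr x y 2)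
        + ∑ x ∈ T, ∑ y ∈ T, (1/10080 : ℝ) * (q5_3 (x 2) * q5_3 (y 2) * rr x y 3)
        + ∑ x ∈ T, ∑ y ∈ T, (1/181440 : ℝ) * (q5_4 (x 2) * q5_4 (y 2) * rr x y 4)
        + ∑ x ∈ T, ∑ y ∈ T, (1/1814400 : ℝ) * (q5_5 (x 2) * q5_5 (y 2) * rr x y 5) := by
    simp only [← Finset.sum_add_distrib]
    refine Finset.sum_congr rfl fun x hx => Finset.sum_congr rfl fun y hy => ?_
    have hx1 := hT x hx
    have hy1 := hT y hy
    unfold IsUnit3 at hx1 hy1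
    have ex : x 0 ^ 2 + x 1 ^ 2 = 1 - x 2 ^ 2 := by linarith
    have ey : y 0 ^ 2 + y 1 ^ 2 = 1 - y 2 ^ 2 := by linarith
    have hr : ∀ m, rr x y (m + 2) = 2 * (x 0 * y 0 + x 1 * y 1) * rr x y (m + 1)
      - (1 - x 2 ^ 2) * (1 - y 2 ^ 2) * rr x y m := by
      intro m; rw [rr_rec, ex, ey]
    have := add5 (x 2) (y 2) (x 0 * y 0 + x 1 * y 1) (rr x y 0) (rr x y 1) (rr x y 2) (rr x y 3) (rr x y 4) (rr x y 5)
      (rr_zero x y) (rr_one x y) (hr 0) (hr 1) (hr 2) (hr 3)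
    rw [dt, this]
  rw [e]
  have p0 := rr_pos' T (1) (by norm_num) (fun x => q5_0 (x 2)) 0
  have p1 := rr_pos' T (1/15) (by norm_num) (fun x => q5_1 (x 2)) 1
  have p2 := rr_pos' T (1/420) (by norm_num) (fun x => q5_2 (x 2)) 2
  have p3 := rr_pos' T (1/10080) (by norm_num) (fun x => q5_3 (x 2)) 3
  have p4 := rr_pos' T (1/181440) (by norm_num) (fun x => q5_4 (x 2)) 4
  have p5 := rr_pos' T (1/1814400) (by norm_num) (fun x => q5_5 (x 2)) 5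
  linarith

/-- Legendre polynomial of degree 9. -/
noncomputable def P9 (t : ℝ) : ℝ := (315/128)*t + (-1155/32)*t^3 + (9009/64)*t^5 + (-6435/32)*t^7 + (12155/128)*t^9

/-- auxiliary polynomial -/
noncomputable def q9_0 (z : ℝ) : ℝ := (315/128)*z + (-1155/32)*z^3 + (9009/64)*z^5 + (-6435/32)*z^7 + (12155/128)*z^9

/-- auxiliary polynomial -/
noncomputable def q9_1 (z : ℝ) : ℝ := (315/128) + (-3465/32)*z^2 + (45045/64)*z^4 + (-45045/32)*z^6 + (109395/128)*z^8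

/-- auxiliary polynomial -/
noncomputable def q9_2 (z : ℝ) : ℝ := (-3465/16)*z + (45045/16)*z^3 + (-135135/16)*z^5 + (109395/16)*z^7

/-- auxiliary polynomial -/
noncomputable def q9_3 (z : ℝ) : ℝ := (-3465/16) + (135135/16)*z^2 + (-675675/16)*z^4 + (765765/16)*z^6

/-- auxiliary polynomial -/
noncomputable def q9_4 (z : ℝ) : ℝ := (135135/8)*z + (-675675/4)*z^3 + (2297295/8)*z^5

/-- auxiliary polynomial -/
noncomputable def q9_5 (z : ℝ) : ℝ := (135135/8) + (-2027025/4)*z^2 + (11486475/8)*z^4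

/-- auxiliary polynomial -/
noncomputable def q9_6 (z : ℝ) : ℝ := (-2027025/2)*z + (11486475/2)*z^3

/-- auxiliary polynomial -/
noncomputable def q9_7 (z : ℝ) : ℝ := (-2027025/2) + (34459425/2)*z^2

/-- auxiliary polynomial -/
noncomputable def q9_8 (z : ℝ) : ℝ := (34459425)*z

/-- auxiliary polynomial -/
noncomputable def q9_9 (z : ℝ) : ℝ := (34459425)

theorem add9 (u v t r0 r1 r2 r3 r4 r5 r6 r7 r8 r9 : ℝ) (h0 : r0 = 1) (h1 : r1 = t)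
    (h2 : r2 = 2 * t * r1 - (1 - u ^ 2) * (1 - v ^ 2) * r0)
    (h3 : r3 = 2 * t * r2 - (1 - u ^ 2) * (1 - v ^ 2) * r1)
    (h4 : r4 = 2 * t * r3 - (1 - u ^ 2) * (1 - v ^ 2) * r2)
    (h5 : r5 = 2 * t * r4 - (1 - u ^ 2) * (1 - v ^ 2) * r3)
    (h6 : r6 = 2 * t * r5 - (1 - u ^ 2) * (1 - v ^ 2) * r4)
    (h7 : r7 = 2 * t * r6 - (1 - u ^ 2) * (1 - v ^ 2) * r5)
    (h8 : r8 = 2 * t * r7 - (1 - u ^ 2) * (1 - v ^ 2) * r6)
    (h9 : r9 = 2 * t * r8 - (1 - u ^ 2) * (1 - v ^ 2) * r7)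
    : P9 (t + u * v) = (1) * (q9_0 u * q9_0 v * r0) + (1/45) * (q9_1 u * q9_1 v * r1) + (1/3960) * (q9_2 u * q9_2 v * r2) + (1/332640) * (q9_3 u * q9_3 v * r3) + (1/25945920) * (q9_4 u * q9_4 v * r4) + (1/1816214400) * (q9_5 u * q9_5 v * r5) + (1/108972864000) * (q9_6 u * q9_6 v * r6) + (1/5230697472000) * (q9_7 u * q9_7 v * r7) + (1/177843714048000) * (q9_8 u * q9_8 v * r8) + (1/3201186852864000) * (q9_9 u * q9_9 v * r9) := by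
  subst h0 h1 h2 h3 h4 h5 h6 h7 h8 h9
  simp only [P9, q9_0, q9_1, q9_2, q9_3, q9_4, q9_5, q9_6, q9_7, q9_8, q9_9]
  ring

theorem pos9 (T : Finset (Fin 3 → ℝ)) (hT : ∀ x ∈ T, IsUnit3 x) :
    0 ≤ ∑ x ∈ T, ∑ y ∈ T, P9 (dt x y) := by
  have e : ∑ x ∈ T, ∑ y ∈ T, P9 (dt x y)
      = ∑ x ∈ T, ∑ y ∈ T, (1 : ℝ) * (q9_0 (x 2) * q9_0 (y 2) * rr x y 0)
        + ∑ x ∈ T, ∑ y ∈ T, (1/45 : ℝ) * (q9_1 (x 2) * q9_1 (y 2) * rr x y 1)
        + ∑ x ∈ T, ∑ y ∈ T, (1/3960 : ℝ) * (q9_2 (x 2) * q9_2 (y 2) * rr x y 2)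
        + ∑ x ∈ T, ∑ y ∈ T, (1/332640 : ℝ) * (q9_3 (x 2) * q9_3 (y 2) * rr x y 3)
        + ∑ x ∈ T, ∑ y ∈ T, (1/25945920 : ℝ) * (q9_4 (x 2) * q9_4 (y 2) * rr x y 4)
        + ∑ x ∈ T, ∑ y ∈ T, (1/1816214400 : ℝ) * (q9_5 (x 2) * q9_5 (y 2) * rr x y 5)
        + ∑ x ∈ T, ∑ y ∈ T, (1/108972864000 : ℝ) * (q9_6 (x 2) * q9_6 (y 2) * rr x y 6)
        + ∑ x ∈ T, ∑ y ∈ T, (1/5230697472000 : ℝ) * (q9_7 (x 2) * q9_7 (y 2) * rr x y 7)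
        + ∑ x ∈ T, ∑ y ∈ T, (1/177843714048000 : ℝ) * (q9_8 (x 2) * q9_8 (y 2) * rr x y 8)
        + ∑ x ∈ T, ∑ y ∈ T, (1/3201186852864000 : ℝ) * (q9_9 (x 2) * q9_9 (y 2) * rr x y 9) := by
    simp only [← Finset.sum_add_distrib]
    refine Finset.sum_congr rfl fun x hx => Finset.sum_congr rfl fun y hy => ?_
    have hx1 := hT x hx
    have hy1 := hT y hy
    unfold IsUnit3 at hx1 hy1
    have ex : x 0 ^ 2 + x 1 ^ 2 = 1 - x 2 ^ 2 := by linarith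
    have ey : y 0 ^ 2 + y 1 ^ 2 = 1 - y 2 ^ 2 := by linarith
    have hr : ∀ m, rr x y (m + 2) = 2 * (x 0 * y 0 + x 1 * y 1) * rr x y (m + 1)
      - (1 - x 2 ^ 2) * (1 - y 2 ^ 2) * rr x y m := by
      intro m; rw [rr_rec, ex, ey]
    have := add9 (x 2) (y 2) (x 0 * y 0 + x 1 * y 1) (rr x y 0) (rr x y 1) (rr x y 2) (rr x y 3) (rr x y 4) (rr x y 5) (rr x y 6) (rr x y 7) (rr x y 8) (rr x y 9)
      (rr_zero x y) (rr_one x y) (hr 0) (hr 1) (hr 2) (hr 3) (hr 4) (hr 5) (hr 6) (hr 7)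
    rw [dt, this]
  rw [e]
  have p0 := rr_pos' T (1) (by norm_num) (fun x => q9_0 (x 2)) 0
  have p1 := rr_pos' T (1/45) (by norm_num) (fun x => q9_1 (x 2)) 1
  have p2 := rr_pos' T (1/3960) (by norm_num) (fun x => q9_2 (x 2)) 2
  have p3 := rr_pos' T (1/332640) (by norm_num) (fun x => q9_3 (x 2)) 3
  have p4 := rr_pos' T (1/25945920) (by norm_num) (fun x => q9_4 (x 2)) 4
  have p5 := rr_pos' T (1/1816214400) (by norm_num) (fun x => q9_5 (x 2)) 5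
  have p6 := rr_pos' T (1/108972864000) (by norm_num) (fun x => q9_6 (x 2)) 6
  have p7 := rr_pos' T (1/5230697472000) (by norm_num) (fun x => q9_7 (x 2)) 7
  have p8 := rr_pos' T (1/177843714048000) (by norm_num) (fun x => q9_8 (x 2)) 8
  have p9 := rr_pos' T (1/3201186852864000) (by norm_num) (fun x => q9_9 (x 2)) 9
  linarith

end Pool.Agent.Kiss47
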