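import Mathlib
import Pool.Agent.Lib_helper47.KissLegendre
import Pool.Agent.Lib_helper47.KissOneVar

/-!
The kissing number of the three-dimensional unit ball is at most 12
(Delsarte's method in the form of Musin, with a degree nine polynomial).
-/

set_option autoImplicit false
set_option maxHeartbeats 4000000
set_option linter.unusedVariables false

namespace Pool.Agent.Kiss47

/-- The degree nine polynomial. -/
noncomputable def fk (t : ℝ) : ℝ :=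
  -152036580 * t ^ 2 - 544975552 * t ^ 3 + 595405299 * t ^ 4 + 3158281125 * t ^ 5
    - 4321800000 * t ^ 7 + 2040850000 * t ^ 9

theorem fk_expand (t : ℝ) : fk t = 342010999 / 5 + 54885283113 / 385 * P1 t
    + 1672117156 / 7 * P2 t + 9841868148 / 65 * P3 t + 4763242392 / 35 * P4 t
    + 118241000 / 7 * P5 t + 3073280000 / 143 * P9 t := by
  unfold fk P1 P2 P3 P4 P5 P9
  ring

theorem fk_one : fk 1 = 775724292 := by unfold fk; norm_num

theorem fk_nonpos (t : ℝ) (h1 : -5 / 7 ≤ t) (h2 : t ≤ 1 / 2) : fk t ≤ 0 := by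
  have hq := Iq t h1 h2
  have e : fk t = -(2040850000 * (t * (t + 2 / 5)) ^ 2 * ((1 / 2 - t) * (t + 5 / 7)) *
      ((7601829/5831000) + (-88561/83300)*t + (-71/70)*t^2 + (1)*t^3)) := by
    unfold fk; ring
  rw [e]
  have h3 : 0 ≤ (1 / 2 - t) * (t + 5 / 7) := mul_nonneg (by linarith) (by linarith)
  have h4 : 0 ≤ 2040850000 * (t * (t + 2 / 5)) ^ 2 * ((1 / 2 - t) * (t + 5 / 7)) *
      ((7601829/5831000) + (-88561/83300)*t + (-71/70)*t^2 + (1)*t^3) :=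
    mul_nonneg (mul_nonneg (by positivity) h3) hq
  linarith

/-- one point -/
theorem fk_single (s : ℝ) (h1 : 5 / 7 ≤ s) (h2 : s ≤ 1) : fk (-s) ≤ 567021527 / 5 := by
  have := I2 s h1 h2
  have e : fk (-s) = -152036580 * s ^ 2 + 544975552 * s ^ 3 + 595405299 * s ^ 4
    - 3158281125 * s ^ 5 + 4321800000 * s ^ 7 - 2040850000 * s ^ 9 := by
    unfold fk; ring
  rw [e]; linarith

theorem fk_mono (s t : ℝ) (h1 : 5 / 7 ≤ s) (h2 : s ≤ t) (h3 : t ≤ 483 / 500) :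
    fk (-s) ≤ fk (-t) := by
  have hm : MonotoneOn (fun s : ℝ => fk (-s)) (Set.Icc (5 / 7) (483 / 500)) := by
    have hd : ∀ x : ℝ, HasDerivAt (fun s : ℝ => fk (-s))
        (-152036580 * (2 * x) + 544975552 * (3 * x ^ 2) + 595405299 * (4 * x ^ 3)
          - 3158281125 * (5 * x ^ 4) + 4321800000 * (7 * x ^ 6) - 2040850000 * (9 * x ^ 8)) x := by
      intro x
      have e : (fun s : ℝ => fk (-s)) = fun s => -152036580 * s ^ 2 + 544975552 * s ^ 3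
          + 595405299 * s ^ 4 - 3158281125 * s ^ 5 + 4321800000 * s ^ 7 - 2040850000 * s ^ 9 := by
        funext s; unfold fk; ring
      rw [e]
      have h2 := (hasDerivAt_pow 2 x).const_mul (-152036580)
      have h3 := (hasDerivAt_pow 3 x).const_mul 544975552
      have h4 := (hasDerivAt_pow 4 x).const_mul 595405299
      have h5 := (hasDerivAt_pow 5 x).const_mul 3158281125
      have h7 := (hasDerivAt_pow 7 x).const_mul 4321800000
      have h9 := (hasDerivAt_pow 9 x).const_mul 2040850000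
      have hh := (((((h2.add h3).add h4).sub h5).add h7).sub h9)
      refine HasDerivAt.congr_deriv hh ?_
      norm_num
    apply monotoneOn_of_deriv_nonneg (convex_Icc _ _)
    · exact fun x _ => (hd x).continuousAt.continuousWithinAt
    · exact fun x _ => (hd x).differentiableAt.differentiableWithinAt
    · intro x hx
      rw [interior_Icc] at hx
      rw [(hd x).deriv]
      have := I4 x hx.1.le hx.2.le
      linarith
  exact hm ⟨h1, by linarith⟩ ⟨by linarith, h3⟩ h2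

/-- Two points on the boundary curve. -/
theorem fk_pair_boundary (a b : ℝ) (h : a * b = (a + b) ^ 2 / 3 - 1 / 4)
    (h1 : 5 / 3 ≤ a + b) (h2 : a + b ≤ 17321 / 10000) :
    fk (-a) + fk (-b) ≤ 567021527 / 5 := by
  obtain ⟨S, hS⟩ : ∃ S, S = a + b := ⟨_, rfl⟩
  obtain ⟨e, he⟩ : ∃ e, e = a * b := ⟨_, rfl⟩
  have p2 : a ^ 2 + b ^ 2 = S ^ 2 - 2 * e := by rw [hS, he]; ring
  have p3 : a ^ 3 + b ^ 3 = S * (a ^ 2 + b ^ 2) - e * S := by rw [hS, he]; ring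
  have p4 : a ^ 4 + b ^ 4 = S * (a ^ 3 + b ^ 3) - e * (a ^ 2 + b ^ 2) := by rw [hS, he]; ring
  have p5 : a ^ 5 + b ^ 5 = S * (a ^ 4 + b ^ 4) - e * (a ^ 3 + b ^ 3) := by rw [hS, he]; ring
  have p6 : a ^ 6 + b ^ 6 = S * (a ^ 5 + b ^ 5) - e * (a ^ 4 + b ^ 4) := by rw [hS, he]; ring
  have p7 : a ^ 7 + b ^ 7 = S * (a ^ 6 + b ^ 6) - e * (a ^ 5 + b ^ 5) := by rw [hS, he]; ring
  have p8 : a ^ 8 + b ^ 8 = S * (a ^ 7 + b ^ 7) - e * (a ^ 6 + b ^ 6) := by rw [hS, he]; ring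
  have p9 : a ^ 9 + b ^ 9 = S * (a ^ 8 + b ^ 8) - e * (a ^ 7 + b ^ 7) := by rw [hS, he]; ring
  have e1 : fk (-a) + fk (-b) = -152036580 * (a ^ 2 + b ^ 2) + 544975552 * (a ^ 3 + b ^ 3)
      + 595405299 * (a ^ 4 + b ^ 4) - 3158281125 * (a ^ 5 + b ^ 5)
      + 4321800000 * (a ^ 7 + b ^ 7) - 2040850000 * (a ^ 9 + b ^ 9) := by
    unfold fk; ring
  have he' : e = S ^ 2 / 3 - 1 / 4 := by rw [he, hS, h]
  have h3 := I3 S (by rw [hS]; exact h1) (by rw [hS]; exact h2)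
  rw [e1, p9, p8, p7, p6, p5, p4, p3, p2, he']
  nlinarith [h3]

/-- The angle inequality for two points, in algebraic form. -/
theorem pair_le (s t c : ℝ) (hs : 5 / 7 < s) (ht : 5 / 7 < t) (hs1 : s ≤ 1) (ht1 : t ≤ 1)
    (hc : c ≤ 1 / 2) (hg : 0 ≤ 1 + 2 * s * t * c - s ^ 2 - t ^ 2 - c ^ 2) :
    s ≤ t / 2 + Real.sqrt 3 / 2 * Real.sqrt (1 - t ^ 2) := by
  have h3 : Real.sqrt 3 ^ 2 = 3 := Real.sq_sqrt (by norm_num)
  have h3' : 0 ≤ Real.sqrt 3 := Real.sqrt_nonneg 3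
  have h3l : 1.7 ≤ Real.sqrt 3 := Real.le_sqrt_of_sq_le (by norm_num)
  have hts : 0 ≤ 1 - t ^ 2 := by nlinarith
  have hss : 0 ≤ 1 - s ^ 2 := by nlinarith
  have hσt : Real.sqrt (1 - t ^ 2) ^ 2 = 1 - t ^ 2 := Real.sq_sqrt hts
  have hσs : Real.sqrt (1 - s ^ 2) ^ 2 = 1 - s ^ 2 := Real.sq_sqrt hss
  have hσt0 : 0 ≤ Real.sqrt (1 - t ^ 2) := Real.sqrt_nonneg _
  have hσs0 : 0 ≤ Real.sqrt (1 - s ^ 2) := Real.sqrt_nonneg _
  generalize Real.sqrt 3 = r at *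
  generalize Real.sqrt (1 - t ^ 2) = q at *
  generalize Real.sqrt (1 - s ^ 2) = p at *
  have h1 : s * t - c ≤ p * q := by
    apply le_of_sq_le_sq _ (mul_nonneg hσs0 hσt0) |>.trans' le_rfl
    have : (p * q) ^ 2 = (1 - s ^ 2) * (1 - t ^ 2) := by rw [mul_pow, hσs, hσt]
    rw [this]; nlinarith
  by_contra hcon
  push Not at hcon
  have hq7 : q ≤ 7 / 10 := by
    by_contra h; push Not at h
    nlinarith
  have ha' : 0 < r / 2 * t - q / 2 := by nlinarith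
  have hp : p < r / 2 * t - q / 2 := by
    have : p ^ 2 < (r / 2 * t - q / 2) ^ 2 := by
      have e : (t / 2 + r / 2 * q) ^ 2 + (r / 2 * t - q / 2) ^ 2 = 1 := by
        have : (t / 2 + r / 2 * q) ^ 2 + (r / 2 * t - q / 2) ^ 2
          = (1 + r ^ 2) / 4 * (t ^ 2 + q ^ 2) := by ring
        rw [this, h3, hσt]; ring
      have h0 : 0 ≤ t / 2 + r / 2 * q := by positivity
      have : (t / 2 + r / 2 * q) ^ 2 < s ^ 2 := by
        apply pow_lt_pow_left₀ hcon h0 (by norm_num)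
      linarith
    exact lt_of_pow_lt_pow_left₀ 2 ha'.le this
  have e2 : (t / 2 + r / 2 * q) * t - (r / 2 * t - q / 2) * q = 1 / 2 := by
    have : (t / 2 + r / 2 * q) * t - (r / 2 * t - q / 2) * q = (t ^ 2 + q ^ 2) / 2 := by ring
    rw [this, hσt]; ring
  have e3 : (t / 2 + r / 2 * q) * t < s * t := mul_lt_mul_of_pos_right hcon (by linarith)
  have e4 : p * q ≤ (r / 2 * t - q / 2) * q := mul_le_mul_of_nonneg_right hp.le hσt0
  linarith

theorem bnd_a (t : ℝ) (ht : 5 / 7 < t) (ht1 : t ≤ 1) :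
    t / 2 + Real.sqrt 3 / 2 * Real.sqrt (1 - t ^ 2) ≤ 483 / 500 := by
  have h3 : Real.sqrt 3 ^ 2 = 3 := Real.sq_sqrt (by norm_num)
  have h3l : 1.73 ≤ Real.sqrt 3 := Real.le_sqrt_of_sq_le (by norm_num)
  have hts : 0 ≤ 1 - t ^ 2 := by nlinarith
  have hσt : Real.sqrt (1 - t ^ 2) ^ 2 = 1 - t ^ 2 := Real.sq_sqrt hts
  have hσt0 : 0 ≤ Real.sqrt (1 - t ^ 2) := Real.sqrt_nonneg _
  generalize Real.sqrt 3 = r at *
  generalize Real.sqrt (1 - t ^ 2) = q at *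
  have hq7 : q ≤ 7 / 10 := by
    by_contra h; push Not at h
    nlinarith
  have e : (t / 2 + r / 2 * q) ^ 2 + (r / 2 * t - q / 2) ^ 2 = 1 := by
    have : (t / 2 + r / 2 * q) ^ 2 + (r / 2 * t - q / 2) ^ 2
      = (1 + r ^ 2) / 4 * (t ^ 2 + q ^ 2) := by ring
    rw [this, h3, hσt]; ring
  have h1 : 0.267 ≤ r / 2 * t - q / 2 := by nlinarith
  by_contra h; push Not at h
  nlinarith

theorem pair_bnd (s t c : ℝ) (hs : 5 / 7 < s) (ht : 5 / 7 < t) (hs1 : s ≤ 1) (ht1 : t ≤ 1)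
    (hc : c ≤ 1 / 2) (hg : 0 ≤ 1 + 2 * s * t * c - s ^ 2 - t ^ 2 - c ^ 2) : s ≤ 483 / 500 :=
  (pair_le s t c hs ht hs1 ht1 hc hg).trans (bnd_a t ht ht1)

theorem fk_pair_aux (s t c : ℝ) (hs : 5 / 7 < s) (ht : 5 / 7 < t) (hs1 : s ≤ 1) (ht1 : t ≤ 1)
    (hc : c ≤ 1 / 2) (hg : 0 ≤ 1 + 2 * s * t * c - s ^ 2 - t ^ 2 - c ^ 2) (hst : t ≤ s) :
    fk (-s) + fk (-t) ≤ 567021527 / 5 := by
  have hle := pair_le s t c hs ht hs1 ht1 hc hg
  have hab := bnd_a t ht ht1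
  have hm := fk_mono s _ hs.le hle hab
  have h3 : Real.sqrt 3 ^ 2 = 3 := Real.sq_sqrt (by norm_num)
  have hts : 0 ≤ 1 - t ^ 2 := by nlinarith
  have hσt : Real.sqrt (1 - t ^ 2) ^ 2 = 1 - t ^ 2 := Real.sq_sqrt hts
  have hb := fk_pair_boundary (t / 2 + Real.sqrt 3 / 2 * Real.sqrt (1 - t ^ 2)) t
  generalize Real.sqrt 3 = r at *
  generalize Real.sqrt (1 - t ^ 2) = q at *
  have hA : (t / 2 + r / 2 * q) ^ 2 - (t / 2 + r / 2 * q) * t + t ^ 2 = 3 / 4 := by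
    have : (t / 2 + r / 2 * q) ^ 2 - (t / 2 + r / 2 * q) * t + t ^ 2
      = 3 / 4 * t ^ 2 + r ^ 2 / 4 * q ^ 2 := by ring
    rw [this, h3, hσt]; ring
  generalize (t / 2 + r / 2 * q) = a at *
  have hat : t ≤ a := hst.trans hle
  have hd : a - t ≤ 1 / 4 := by
    by_contra h; push Not at h
    nlinarith
  have h1 := hb (by nlinarith) (by
    by_contra h; push Not at h
    nlinarith) (by
    by_contra h; push Not at h
    nlinarith [sq_nonneg (a - t)])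
  linarith

theorem fk_pair (s t c : ℝ) (hs : 5 / 7 < s) (ht : 5 / 7 < t) (hs1 : s ≤ 1) (ht1 : t ≤ 1)
    (hc : c ≤ 1 / 2) (hg : 0 ≤ 1 + 2 * s * t * c - s ^ 2 - t ^ 2 - c ^ 2) :
    fk (-s) + fk (-t) ≤ 567021527 / 5 := by
  rcases le_total t s with h | h
  · exact fk_pair_aux s t c hs ht hs1 ht1 hc hg h
  · rw [add_comm]
    exact fk_pair_aux t s c ht hs ht1 hs1 hc (by linarith) h

theorem fk_quad (s : ℝ) (h1 : 5 / 7 ≤ s) (h2 : s ≤ 483 / 500) :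
    fk (-s) ≤ 850000000 * s ^ 2 - 965000000 * s + 257000000 := by
  have := I5 s h1 h2
  have e : fk (-s) = -152036580 * s ^ 2 + 544975552 * s ^ 3 + 595405299 * s ^ 4
    - 3158281125 * s ^ 5 + 4321800000 * s ^ 7 - 2040850000 * s ^ 9 := by
    unfold fk; ring
  rw [e]; linarith

theorem fk_triple (s1 s2 s3 c12 c13 c23 : ℝ)
    (h1 : 5 / 7 < s1) (h2 : 5 / 7 < s2) (h3 : 5 / 7 < s3)
    (k1 : s1 ≤ 483 / 500) (k2 : s2 ≤ 483 / 500) (k3 : s3 ≤ 483 / 500)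
    (hc12 : c12 ≤ 1 / 2) (hc13 : c13 ≤ 1 / 2) (hc23 : c23 ≤ 1 / 2)
    (hq : ∀ a1 a2 a3 : ℝ, 0 ≤ 1 - 2 * (a1 * s1 + a2 * s2 + a3 * s3) + a1 ^ 2 + a2 ^ 2 + a3 ^ 2
      + 2 * a1 * a2 * c12 + 2 * a1 * a3 * c13 + 2 * a2 * a3 * c23) :
    fk (-s1) + fk (-s2) + fk (-s3) ≤ 567021527 / 5 := by
  have f1 := fk_quad s1 h1.le k1
  have f2 := fk_quad s2 h2.le k2
  have f3 := fk_quad s3 h3.le k3
  obtain ⟨S, hS⟩ : ∃ S, S = s1 + s2 + s3 := ⟨_, rfl⟩
  have hS6 : S ^ 2 ≤ 6 := by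
    have := hq (S / 6) (S / 6) (S / 6)
    have hSS : 0 ≤ S ^ 2 := sq_nonneg S
    nlinarith
  have hSl : 15 / 7 < S := by rw [hS]; linarith
  have hSu : S ≤ 24495 / 10000 := by
    by_contra h; push Not at h
    nlinarith
  have a1 : 0 ≤ 2 * s1 - S / 2 := by linarith
  have a2 : 0 ≤ 2 * s2 - S / 2 := by linarith
  have a3 : 0 ≤ 2 * s3 - S / 2 := by linarith
  have hqq := hq (2 * s1 - S / 2) (2 * s2 - S / 2) (2 * s3 - S / 2)
  have b12 : (2 * s1 - S / 2) * (2 * s2 - S / 2) * c12 ≤ (2 * s1 - S / 2) * (2 * s2 - S / 2) * (1 / 2) :=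
    mul_le_mul_of_nonneg_left hc12 (mul_nonneg a1 a2)
  have b13 : (2 * s1 - S / 2) * (2 * s3 - S / 2) * c13 ≤ (2 * s1 - S / 2) * (2 * s3 - S / 2) * (1 / 2) :=
    mul_le_mul_of_nonneg_left hc13 (mul_nonneg a1 a3)
  have b23 : (2 * s2 - S / 2) * (2 * s3 - S / 2) * c23 ≤ (2 * s2 - S / 2) * (2 * s3 - S / 2) * (1 / 2) :=
    mul_le_mul_of_nonneg_left hc23 (mul_nonneg a2 a3)
  have hQ : s1 ^ 2 + s2 ^ 2 + s3 ^ 2 ≤ 1 / 2 + S ^ 2 / 4 := by
    subst hS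
    linarith
  have hfin : 425000000 / 2 * S ^ 2 - 965000000 * S + 425000000 + 771000000 ≤ 567021527 / 5 := by
    nlinarith [mul_nonneg (sub_nonneg.mpr hSl.le) (sub_nonneg.mpr hSu)]
  have h9 : 850000000 * (s1 ^ 2 + s2 ^ 2 + s3 ^ 2) ≤ 850000000 * (1 / 2 + S ^ 2 / 4) := by linarith
  subst hS
  linarith

end Pool.Agent.Kiss47
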