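import Mathlib
import Pool.Agent.Lib_helper47.KissNumber

set_option autoImplicit false
set_option maxHeartbeats 4000000
set_option linter.unusedVariables false

namespace Pool.Agent.Kiss47

theorem dt_comm (x y : Fin 3 → ℝ) : dt x y = dt y x := by unfold dt; ring

theorem dt_self (x : Fin 3 → ℝ) (h : IsUnit3 x) : dt x x = 1 := by
  unfold IsUnit3 at h; unfold dt; linarith

theorem gram_nonneg (x y z : Fin 3 → ℝ) (hx : IsUnit3 x) (hy : IsUnit3 y) (hz : IsUnit3 z) :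
    0 ≤ 1 + 2 * dt x y * dt x z * dt y z - dt x y ^ 2 - dt x z ^ 2 - dt y z ^ 2 := by
  unfold IsUnit3 at hx hy hz
  have e : (x 0 * (y 1 * z 2 - y 2 * z 1) - x 1 * (y 0 * z 2 - y 2 * z 0)
      + x 2 * (y 0 * z 1 - y 1 * z 0)) ^ 2
      = (x 0 ^ 2 + x 1 ^ 2 + x 2 ^ 2) * (y 0 ^ 2 + y 1 ^ 2 + y 2 ^ 2) * (z 0 ^ 2 + z 1 ^ 2 + z 2 ^ 2)
        + 2 * dt x y * dt x z * dt y z - (z 0 ^ 2 + z 1 ^ 2 + z 2 ^ 2) * dt x y ^ 2
        - (y 0 ^ 2 + y 1 ^ 2 + y 2 ^ 2) * dt x z ^ 2 - (x 0 ^ 2 + x 1 ^ 2 + x 2 ^ 2) * dt y z ^ 2 := by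
    unfold dt; ring
  rw [hx, hy, hz] at e
  have := sq_nonneg (x 0 * (y 1 * z 2 - y 2 * z 1) - x 1 * (y 0 * z 2 - y 2 * z 0)
      + x 2 * (y 0 * z 1 - y 1 * z 0))
  linarith

theorem dt_le_one (x y : Fin 3 → ℝ) (hx : IsUnit3 x) (hy : IsUnit3 y) : -1 ≤ dt x y := by
  unfold IsUnit3 at hx hy
  unfold dt
  nlinarith [sq_nonneg (x 0 + y 0), sq_nonneg (x 1 + y 1), sq_nonneg (x 2 + y 2)]

/-- determinant -/
def det3 (x y z : Fin 3 → ℝ) : ℝ :=
  x 0 * (y 1 * z 2 - y 2 * z 1) - x 1 * (y 0 * z 2 - y 2 * z 0) + x 2 * (y 0 * z 1 - y 1 * z 0)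

theorem det3_mul (x y z w : Fin 3 → ℝ) (hx : IsUnit3 x) (hw : IsUnit3 w) :
    det3 x y w * det3 x z w
      = (dt y z - dt x y * dt x z) * (1 - dt x w ^ 2)
        - (dt y w - dt x y * dt x w) * (dt z w - dt x z * dt x w) := by
  unfold IsUnit3 at hx hw
  have e : det3 x y w * det3 x z w
      = (x 0 ^ 2 + x 1 ^ 2 + x 2 ^ 2) * (dt y z * (w 0 ^ 2 + w 1 ^ 2 + w 2 ^ 2) - dt y w * dt z w)
        - dt x z * (dt x y * (w 0 ^ 2 + w 1 ^ 2 + w 2 ^ 2) - dt y w * dt x w)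
        + dt x w * (dt x y * dt z w - dt y z * dt x w) := by
    unfold det3 dt; ring
  rw [e, hx, hw]; ring

/-- No four points in the open cap. -/
theorem no_four (x y1 y2 y3 y4 : Fin 3 → ℝ) (hx : IsUnit3 x) (h1 : IsUnit3 y1) (h2 : IsUnit3 y2)
    (h3 : IsUnit3 y3) (h4 : IsUnit3 y4)
    (k1 : dt x y1 < -5 / 7) (k2 : dt x y2 < -5 / 7) (k3 : dt x y3 < -5 / 7) (k4 : dt x y4 < -5 / 7)
    (c12 : dt y1 y2 ≤ 1 / 2) (c13 : dt y1 y3 ≤ 1 / 2) (c14 : dt y1 y4 ≤ 1 / 2)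
    (c23 : dt y2 y3 ≤ 1 / 2) (c24 : dt y2 y4 ≤ 1 / 2) (c34 : dt y3 y4 ≤ 1 / 2) : False := by
  have m1 := dt_le_one x y4 hx h4
  have key : ∀ a b : Fin 3 → ℝ, dt x a < -5 / 7 → dt x b < -5 / 7 → dt a b ≤ 1 / 2 →
      dt a y4 ≤ 1 / 2 → dt b y4 ≤ 1 / 2 → det3 x a y4 * det3 x b y4 < 0 := by
    intro a b ha hb hab ha4 hb4
    rw [det3_mul x a b y4 hx h4]
    have e1 : dt a b - dt x a * dt x b < 0 := by nlinarith
    have e2 : dt a y4 - dt x a * dt x y4 < 0 := by nlinarith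
    have e3 : dt b y4 - dt x b * dt x y4 < 0 := by nlinarith
    have e4 : 0 ≤ 1 - dt x y4 ^ 2 := by nlinarith
    have e5 : 0 < (dt a y4 - dt x a * dt x y4) * (dt b y4 - dt x b * dt x y4) :=
      mul_pos_of_neg_of_neg e2 e3
    have e6 : (dt a b - dt x a * dt x b) * (1 - dt x y4 ^ 2) ≤ 0 :=
      mul_nonpos_of_nonpos_of_nonneg e1.le e4
    linarith
  have p12 := key y1 y2 k1 k2 c12 c14 c24
  have p13 := key y1 y3 k1 k3 c13 c14 c34
  have p23 := key y2 y3 k2 k3 c23 c24 c34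
  rcases lt_trichotomy (det3 x y1 y4) 0 with h | h | h
  · have q2 : 0 < det3 x y2 y4 := by
      by_contra hc; push Not at hc; nlinarith
    have q3 : 0 < det3 x y3 y4 := by
      by_contra hc; push Not at hc; nlinarith
    nlinarith
  · rw [h] at p12; simp at p12
  · have q2 : det3 x y2 y4 < 0 := by
      by_contra hc; push Not at hc; nlinarith
    have q3 : det3 x y3 y4 < 0 := by
      by_contra hc; push Not at hc; nlinarith
    nlinarith

theorem row_bound (T : Finset (Fin 3 → ℝ)) (hT : ∀ x ∈ T, IsUnit3 x)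
    (hsep : ∀ x ∈ T, ∀ y ∈ T, x ≠ y → dt x y ≤ 1 / 2) (x : Fin 3 → ℝ) (hx : x ∈ T) :
    ∑ y ∈ T, fk (dt x y) ≤ 775724292 + 567021527 / 5 := by
  classical
  rw [← Finset.add_sum_erase T _ hx, dt_self x (hT x hx), fk_one]
  have hU := hT x hx
  set A := (T.erase x).filter (fun y => dt x y < -5 / 7) with hA
  have h1 : ∑ y ∈ T.erase x, fk (dt x y) ≤ ∑ y ∈ A, fk (dt x y) := by
    rw [hA, Finset.sum_filter]
    apply Finset.sum_le_sum
    intro y hy
    rw [Finset.mem_erase] at hy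
    split_ifs with h
    · exact le_rfl
    · exact fk_nonpos _ (by linarith) (hsep x hx y hy.2 (Ne.symm hy.1))
  have hmem : ∀ y ∈ A, y ∈ T ∧ y ≠ x ∧ dt x y < -5 / 7 := by
    intro y hy
    rw [hA, Finset.mem_filter, Finset.mem_erase] at hy
    exact ⟨hy.1.2, hy.1.1, hy.2⟩
  have hcard : A.card ≤ 3 := by
    by_contra hc
    push Not at hc
    obtain ⟨B, hB, hB4⟩ := Finset.exists_subset_card_eq (s := A) (n := 4) (by omega)
    obtain ⟨w, hw⟩ : B.Nonempty := by rw [← Finset.card_pos]; omega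
    have : (B.erase w).card = 3 := by rw [Finset.card_erase_of_mem hw]; omega
    obtain ⟨a, b, c, hab, hac, hbc, hE⟩ := Finset.card_eq_three.mp this
    have ha : a ∈ B.erase w := by rw [hE]; simp
    have hb : b ∈ B.erase w := by rw [hE]; simp
    have hc' : c ∈ B.erase w := by rw [hE]; simp
    rw [Finset.mem_erase] at ha hb hc'
    have Ma := hmem a (hB ha.2)
    have Mb := hmem b (hB hb.2)
    have Mc := hmem c (hB hc'.2)
    have Mw := hmem w (hB hw)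
    exact no_four x a b c w hU (hT a Ma.1) (hT b Mb.1) (hT c Mc.1) (hT w Mw.1)
      Ma.2.2 Mb.2.2 Mc.2.2 Mw.2.2 (hsep a Ma.1 b Mb.1 hab) (hsep a Ma.1 c Mc.1 hac)
      (hsep a Ma.1 w Mw.1 ha.1) (hsep b Mb.1 c Mc.1 hbc) (hsep b Mb.1 w Mw.1 hb.1)
      (hsep c Mc.1 w Mw.1 hc'.1)
  have hsum : ∑ y ∈ A, fk (dt x y) ≤ 567021527 / 5 := by
    have hcases : A.card = 0 ∨ A.card = 1 ∨ A.card = 2 ∨ A.card = 3 := by omega
    rcases hcases with h | h | h | h
    · rw [Finset.card_eq_zero] at h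
      rw [h]; norm_num
    · obtain ⟨a, ha⟩ := Finset.card_eq_one.mp h
      have Ma := hmem a (by rw [ha]; simp)
      rw [ha, Finset.sum_singleton]
      have := fk_single (-(dt x a)) (by linarith [Ma.2.2]) (by linarith [dt_le_one x a hU (hT a Ma.1)])
      rwa [neg_neg] at this
    · obtain ⟨a, b, hab, hE⟩ := Finset.card_eq_two.mp h
      have Ma := hmem a (by rw [hE]; simp)
      have Mb := hmem b (by rw [hE]; simp)
      rw [hE, Finset.sum_pair hab]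
      have hg := gram_nonneg x a b hU (hT a Ma.1) (hT b Mb.1)
      have := fk_pair (-(dt x a)) (-(dt x b)) (dt a b) (by linarith [Ma.2.2]) (by linarith [Mb.2.2])
        (by linarith [dt_le_one x a hU (hT a Ma.1)]) (by linarith [dt_le_one x b hU (hT b Mb.1)])
        (hsep a Ma.1 b Mb.1 hab) (by nlinarith [hg])
      rwa [neg_neg, neg_neg] at this
    · obtain ⟨a, b, c, hab, hac, hbc, hE⟩ := Finset.card_eq_three.mp h
      have Ma := hmem a (by rw [hE]; simp)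
      have Mb := hmem b (by rw [hE]; simp)
      have Mc := hmem c (by rw [hE]; simp)
      have hsumE : ∑ y ∈ A, fk (dt x y) = fk (dt x a) + fk (dt x b) + fk (dt x c) := by
        rw [hE, Finset.sum_insert (by simp [hab, hac]), Finset.sum_pair hbc]; ring
      rw [hsumE]
      have la := dt_le_one x a hU (hT a Ma.1)
      have lb := dt_le_one x b hU (hT b Mb.1)
      have lc := dt_le_one x c hU (hT c Mc.1)
      have gab := gram_nonneg x a b hU (hT a Ma.1) (hT b Mb.1)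
      have gbc := gram_nonneg x b c hU (hT b Mb.1) (hT c Mc.1)
      have gca := gram_nonneg x c a hU (hT c Mc.1) (hT a Ma.1)
      have sab := hsep a Ma.1 b Mb.1 hab
      have sbc := hsep b Mb.1 c Mc.1 hbc
      have sca := hsep c Mc.1 a Ma.1 (Ne.symm hac)
      have ua := pair_bnd (-(dt x a)) (-(dt x b)) (dt a b) (by linarith [Ma.2.2])
        (by linarith [Mb.2.2]) (by linarith) (by linarith) sab (by nlinarith [gab])
      have ub := pair_bnd (-(dt x b)) (-(dt x c)) (dt b c) (by linarith [Mb.2.2])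
        (by linarith [Mc.2.2]) (by linarith) (by linarith) sbc (by nlinarith [gbc])
      have uc := pair_bnd (-(dt x c)) (-(dt x a)) (dt c a) (by linarith [Mc.2.2])
        (by linarith [Ma.2.2]) (by linarith) (by linarith) sca (by nlinarith [gca])
      have := fk_triple (-(dt x a)) (-(dt x b)) (-(dt x c)) (dt a b) (dt a c) (dt b c)
        (by linarith [Ma.2.2]) (by linarith [Mb.2.2]) (by linarith [Mc.2.2]) ua ub uc sab
        (by rw [dt_comm]; exact sca) sbc ?_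
      · rwa [neg_neg, neg_neg, neg_neg] at this
      · intro a1 a2 a3
        have hUx := hU
        have hUa := hT a Ma.1
        have hUb := hT b Mb.1
        have hUc := hT c Mc.1
        unfold IsUnit3 at hUx hUa hUb hUc
        have e : (x 0 + a1 * a 0 + a2 * b 0 + a3 * c 0) ^ 2 + (x 1 + a1 * a 1 + a2 * b 1 + a3 * c 1) ^ 2
          + (x 2 + a1 * a 2 + a2 * b 2 + a3 * c 2) ^ 2
          = (x 0 ^ 2 + x 1 ^ 2 + x 2 ^ 2) + a1 ^ 2 * (a 0 ^ 2 + a 1 ^ 2 + a 2 ^ 2)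
            + a2 ^ 2 * (b 0 ^ 2 + b 1 ^ 2 + b 2 ^ 2) + a3 ^ 2 * (c 0 ^ 2 + c 1 ^ 2 + c 2 ^ 2)
            + 2 * (a1 * dt x a + a2 * dt x b + a3 * dt x c) + 2 * a1 * a2 * dt a b
            + 2 * a1 * a3 * dt a c + 2 * a2 * a3 * dt b c := by
          unfold dt; ring
        rw [hUx, hUa, hUb, hUc] at e
        have : 0 ≤ (x 0 + a1 * a 0 + a2 * b 0 + a3 * c 0) ^ 2 + (x 1 + a1 * a 1 + a2 * b 1 + a3 * c 1) ^ 2
          + (x 2 + a1 * a 2 + a2 * b 2 + a3 * c 2) ^ 2 := by positivity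
        linarith
  linarith

/-- **The kissing number theorem in dimension three.** -/
theorem kissing (T : Finset (Fin 3 → ℝ)) (hT : ∀ x ∈ T, IsUnit3 x)
    (hsep : ∀ x ∈ T, ∀ y ∈ T, x ≠ y → dt x y ≤ 1 / 2) : T.card ≤ 12 := by
  by_contra hc
  push Not at hc
  obtain ⟨B, hB, hB13⟩ := Finset.exists_subset_card_eq (s := T) (n := 13) (by omega)
  have hBu : ∀ x ∈ B, IsUnit3 x := fun x hx => hT x (hB hx)
  have hBs : ∀ x ∈ B, ∀ y ∈ B, x ≠ y → dt x y ≤ 1 / 2 :=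
    fun x hx y hy => hsep x (hB hx) y (hB hy)
  have hup : ∑ x ∈ B, ∑ y ∈ B, fk (dt x y) ≤ 13 * (775724292 + 567021527 / 5) := by
    have : ∑ x ∈ B, ∑ y ∈ B, fk (dt x y) ≤ ∑ x ∈ B, (775724292 + 567021527 / 5 : ℝ) :=
      Finset.sum_le_sum fun x hx => row_bound B hBu hBs x hx
    rw [Finset.sum_const, hB13, nsmul_eq_mul] at this
    exact_mod_cast this
  have hlow : 342010999 / 5 * 169 ≤ ∑ x ∈ B, ∑ y ∈ B, fk (dt x y) := by
    have e : ∑ x ∈ B, ∑ y ∈ B, fk (dt x y)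
        = ∑ x ∈ B, ∑ y ∈ B, (342010999 / 5 : ℝ) + 54885283113 / 385 * ∑ x ∈ B, ∑ y ∈ B, P1 (dt x y)
          + 1672117156 / 7 * ∑ x ∈ B, ∑ y ∈ B, P2 (dt x y)
          + 9841868148 / 65 * ∑ x ∈ B, ∑ y ∈ B, P3 (dt x y)
          + 4763242392 / 35 * ∑ x ∈ B, ∑ y ∈ B, P4 (dt x y)
          + 118241000 / 7 * ∑ x ∈ B, ∑ y ∈ B, P5 (dt x y)
          + 3073280000 / 143 * ∑ x ∈ B, ∑ y ∈ B, P9 (dt x y) := by
      simp only [Finset.mul_sum, ← Finset.sum_add_distrib]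
      refine Finset.sum_congr rfl fun x _ => Finset.sum_congr rfl fun y _ => fk_expand _
    have c0 : ∑ x ∈ B, ∑ y ∈ B, (342010999 / 5 : ℝ) = 342010999 / 5 * 169 := by
      simp only [Finset.sum_const, hB13]; norm_num
    rw [e, c0]
    have := pos1 B hBu
    have := pos2 B hBu
    have := pos3 B hBu
    have := pos4 B hBu
    have := pos5 B hBu
    have := pos9 B hBu
    linarith
  norm_num at hup hlow
  linarith

end Pool.Agent.Kiss47
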