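import Mathlib

/-!
Averaging over the orthogonal group of three-space; uniqueness of the invariant measure on the
sphere.
-/

set_option autoImplicit false
set_option linter.unusedVariables false

open MeasureTheory Metric Set

namespace Pool.Agent.Kiss47

abbrev E3 := EuclideanSpace ℝ (Fin 3)

instance instContinuousStarE3 : ContinuousStar (E3 →L[ℝ] E3) :=
  ⟨(ContinuousLinearMap.adjoint (𝕜 := ℝ) (E := E3) (F := E3)).continuous⟩

/-- The orthogonal group. -/
noncomputable abbrev O3 := unitary (E3 →L[ℝ] E3)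

theorem O3_norm (g : O3) (x : E3) : ‖(g : E3 →L[ℝ] E3) x‖ = ‖x‖ := by
  exact (Unitary.linearIsometryEquiv g).norm_map x

instance instCompactO3 : CompactSpace O3 := by
  have hcl : IsClosed ((unitary (E3 →L[ℝ] E3) : Set (E3 →L[ℝ] E3))) := isClosed_unitary
  have : ProperSpace (E3 →L[ℝ] E3) := FiniteDimensional.proper ℝ _
  have hb : Bornology.IsBounded ((unitary (E3 →L[ℝ] E3) : Set (E3 →L[ℝ] E3))) := by
    apply (Metric.isBounded_closedBall (x := (0 : E3 →L[ℝ] E3)) (r := 1)).subset
    intro u hu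
    rw [mem_closedBall_zero_iff]
    apply ContinuousLinearMap.opNorm_le_bound _ zero_le_one
    intro x
    rw [O3_norm ⟨u, hu⟩ x, one_mul]
  exact isCompact_iff_compactSpace.mp (Metric.isCompact_of_isClosed_isBounded hcl hb)

noncomputable instance : MeasurableSpace O3 := borel O3
instance : BorelSpace O3 := ⟨rfl⟩

/-- the isometric equivalence attached to an orthogonal map -/
noncomputable def toIso (g : O3) : E3 ≃ₗᵢ[ℝ] E3 := Unitary.linearIsometryEquiv g

theorem toIso_apply (g : O3) (x : E3) : toIso g x = (g : E3 →L[ℝ] E3) x := by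
  unfold toIso
  exact congrArg (fun f : E3 →L[ℝ] E3 => f x) (Unitary.coe_linearIsometryEquiv_apply g)

theorem exists_O3 (x y : E3) (hx : ‖x‖ = 1) (hy : ‖y‖ = 1) : ∃ g : O3, (g : E3 →L[ℝ] E3) x = y := by
  refine ⟨Unitary.linearIsometryEquiv.symm ((ℝ ∙ (x - y))ᗮ.reflection), ?_⟩
  have h := Submodule.reflection_sub (v := x) (w := y) (by rw [hx, hy])
  conv_rhs => rw [← h]
  rw [Unitary.coe_symm_linearIsometryEquiv_apply]
  rfl

/-- A finite measure on the sphere invariant under all linear isometries. -/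
structure InvSphere (μ : Measure E3) : Prop where
  inv : ∀ (e : E3 ≃ₗᵢ[ℝ] E3) (A : Set E3), MeasurableSet A → μ (e ⁻¹' A) = μ A
  supp : μ {x | ‖x‖ ≠ 1} = 0

/-- the action map -/
noncomputable def act (z : O3 × E3) : E3 := ((z.1⁻¹ : O3) : E3 →L[ℝ] E3) z.2

theorem continuous_act : Continuous act := by
  unfold act
  have h1 : Continuous fun z : O3 × E3 => ((z.1⁻¹ : O3) : E3 →L[ℝ] E3) :=
    continuous_subtype_val.comp (continuous_inv.comp continuous_fst)
  exact h1.clm_apply continuous_snd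

/-- the Haar measure on the orthogonal group -/
noncomputable def haar3 : Measure O3 := Measure.haar

instance : IsFiniteMeasure haar3 := by
  unfold haar3; infer_instance

theorem haar3_univ_pos : 0 < haar3 Set.univ := by
  unfold haar3
  exact isOpen_univ.measure_pos _ ⟨1, trivial⟩

theorem haar_const (A : Set E3) (hA : MeasurableSet A) (x p : E3) (hx : ‖x‖ = 1) (hp : ‖p‖ = 1) :
    haar3 {g : O3 | act (g, x) ∈ A} = haar3 {g : O3 | act (g, p) ∈ A} := by
  obtain ⟨h, hh⟩ := exists_O3 p x hp hx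
  have e : {g : O3 | act (g, x) ∈ A} = (fun g => h⁻¹ * g) ⁻¹' {g : O3 | act (g, p) ∈ A} := by
    ext g
    simp only [Set.mem_ofPred_eq, Set.mem_preimage, act]
    rw [← hh, mul_inv_rev, inv_inv]
    rfl
  rw [e]
  unfold haar3
  exact measure_preimage_mul _ _ _

theorem avg_formula (μ : Measure E3) [IsFiniteMeasure μ] (hμ : InvSphere μ) (A : Set E3)
    (hA : MeasurableSet A) (p : E3) (hp : ‖p‖ = 1) :
    μ A * haar3 Set.univ = haar3 {g : O3 | act (g, p) ∈ A} * μ Set.univ := by
  have hM : MeasurableSet (act ⁻¹' A) := continuous_act.measurable hA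
  have h1 := Measure.prod_apply (μ := haar3) (ν := μ) hM
  have h2 := Measure.prod_apply_symm (μ := haar3) (ν := μ) hM
  have e1 : ∀ g : O3, μ (Prod.mk g ⁻¹' (act ⁻¹' A)) = μ A := by
    intro g
    have : Prod.mk g ⁻¹' (act ⁻¹' A) = (toIso g⁻¹) ⁻¹' A := by
      ext x
      simp only [Set.mem_preimage, act, toIso_apply]
    rw [this, hμ.inv _ _ hA]
  have e2 : ∀ᵐ x ∂μ, haar3 ((fun g => (g, x)) ⁻¹' (act ⁻¹' A)) = haar3 {g : O3 | act (g, p) ∈ A} := by
    have : ∀ᵐ x ∂μ, ‖x‖ = 1 := by
      rw [ae_iff]; exact hμ.supp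
    filter_upwards [this] with x hx
    exact haar_const A hA x p hx hp
  rw [h1, lintegral_congr_ae e2] at h2
  simp_rw [e1] at h2
  rw [lintegral_const, lintegral_const] at h2
  exact h2

/-- Two invariant measures on the sphere are proportional. -/
theorem inv_prop (μ σ : Measure E3) [IsFiniteMeasure μ] [IsFiniteMeasure σ] (hμ : InvSphere μ)
    (hσ : InvSphere σ) (A : Set E3) (hA : MeasurableSet A) :
    μ A * σ Set.univ = σ A * μ Set.univ := by
  obtain ⟨p, hp⟩ : ∃ p : E3, ‖p‖ = 1 := ⟨EuclideanSpace.single 0 1, by simp⟩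
  have h1 := avg_formula μ hμ A hA p hp
  have h2 := avg_formula σ hσ A hA p hp
  have hpos := haar3_univ_pos.ne'
  have hfin : haar3 Set.univ ≠ ⊤ := measure_ne_top _ _
  have : (μ A * σ Set.univ) * haar3 Set.univ = (σ A * μ Set.univ) * haar3 Set.univ := by
    calc (μ A * σ Set.univ) * haar3 Set.univ = (μ A * haar3 Set.univ) * σ Set.univ := by ring
      _ = haar3 {g : O3 | act (g, p) ∈ A} * μ Set.univ * σ Set.univ := by rw [h1]
      _ = (haar3 {g : O3 | act (g, p) ∈ A} * σ Set.univ) * μ Set.univ := by ring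
      _ = (σ A * haar3 Set.univ) * μ Set.univ := by rw [h2]
      _ = _ := by ring
  exact (ENNReal.mul_left_inj hpos hfin).mp this

end Pool.Agent.Kiss47
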