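import Mathlib
import Pool.Agent.Lib_helper47.KissMain
import Pool.Agent.Lib_helper47.SphereAvg

/-!
Lower bound for the area of the union of caps of radius `π/3` around a 60-degree separated set.
-/

set_option autoImplicit false
set_option linter.unusedVariables false

open MeasureTheory Metric Set

namespace Pool.Agent.Kiss47

theorem inner_eq_dt (x y : E3) : inner ℝ x y = dt (fun i => x i) (fun i => y i) := by
  rw [PiLp.inner_apply, Fin.sum_univ_three]
  simp only [dt, RCLike.inner_apply, conj_trivial]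
  ring

theorem isUnit3_of_norm (x : E3) (h : ‖x‖ = 1) : IsUnit3 (fun i => x i) := by
  have h1 : inner ℝ x x = (1 : ℝ) := by rw [real_inner_self_eq_norm_sq, h]; norm_num
  rw [inner_eq_dt] at h1
  unfold dt at h1
  unfold IsUnit3
  simp only at h1 ⊢
  linarith

theorem kissingE (T : Finset E3) (hT : ∀ x ∈ T, ‖x‖ = 1)
    (hsep : ∀ x ∈ T, ∀ y ∈ T, x ≠ y → inner ℝ x y ≤ (1 / 2 : ℝ)) : T.card ≤ 12 := by
  classical
  have hinj : Function.Injective (fun x : E3 => (fun i => x i : Fin 3 → ℝ)) := by
    intro x y h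
    ext i
    exact congrFun h i
  rw [← Finset.card_image_of_injective T hinj]
  apply kissing
  · intro x hx
    obtain ⟨y, hy, rfl⟩ := Finset.mem_image.mp hx
    exact isUnit3_of_norm y (hT y hy)
  · intro x hx x' hx' hne
    obtain ⟨y, hy, rfl⟩ := Finset.mem_image.mp hx
    obtain ⟨y', hy', rfl⟩ := Finset.mem_image.mp hx'
    rw [← inner_eq_dt]
    exact hsep y hy y' hy' (fun h => hne (by rw [h]))

/-- the open cap -/
def cap (u : E3) (r : ℝ) : Set E3 := {x : E3 | ‖x‖ = 1 ∧ InnerProductGeometry.angle u x < r}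

theorem measurableSet_cap (u : E3) (r : ℝ) : MeasurableSet (cap u r) := by
  unfold cap InnerProductGeometry.angle
  apply MeasurableSet.inter
  · exact measurable_norm (measurableSet_singleton 1)
  · have : Measurable fun x : E3 => Real.arccos (inner ℝ u x / (‖u‖ * ‖x‖)) := by fun_prop
    exact this measurableSet_Iio

theorem angle_lt_pi_div_three_iff (u x : E3) (hu : ‖u‖ = 1) (hx : ‖x‖ = 1) :
    InnerProductGeometry.angle u x < Real.pi / 3 ↔ (1 / 2 : ℝ) < inner ℝ u x := by
  have hc : Real.cos (InnerProductGeometry.angle u x) = inner ℝ u x := by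
    rw [InnerProductGeometry.cos_angle, hu, hx]; simp
  have h0 := InnerProductGeometry.angle_nonneg u x
  have hp := InnerProductGeometry.angle_le_pi u x
  rw [← hc, ← Real.cos_pi_div_three]
  constructor
  · intro h
    exact Real.cos_lt_cos_of_nonneg_of_le_pi h0 (by linarith [Real.pi_pos]) h
  · intro h
    by_contra hcon
    push Not at hcon
    have := Real.cos_le_cos_of_nonneg_of_le_pi (by positivity) hp hcon
    linarith

/-- integer coordinates of the cuboctahedron -/
def cuboZ : Fin 12 → Fin 3 → ℤ :=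
  ![![1, 1, 0], ![1, -1, 0], ![-1, 1, 0], ![-1, -1, 0],
    ![1, 0, 1], ![1, 0, -1], ![-1, 0, 1], ![-1, 0, -1],
    ![0, 1, 1], ![0, 1, -1], ![0, -1, 1], ![0, -1, -1]]

theorem cuboZ_self : ∀ i : Fin 12, cuboZ i 0 * cuboZ i 0 + cuboZ i 1 * cuboZ i 1
    + cuboZ i 2 * cuboZ i 2 = 2 := by decide

theorem cuboZ_ne : ∀ i j : Fin 12, i ≠ j → cuboZ i 0 * cuboZ j 0 + cuboZ i 1 * cuboZ j 1
    + cuboZ i 2 * cuboZ j 2 ≤ 1 := by decide

/-- the twelve vertices of the cuboctahedron -/
noncomputable def cubo (i : Fin 12) : E3 :=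
  WithLp.toLp 2 (fun k => (cuboZ i k : ℝ) / Real.sqrt 2)

theorem cubo_inner (i j : Fin 12) : inner ℝ (cubo i) (cubo j)
    = ((cuboZ i 0 * cuboZ j 0 + cuboZ i 1 * cuboZ j 1 + cuboZ i 2 * cuboZ j 2 : ℤ) : ℝ) / 2 := by
  rw [inner_eq_dt]
  have h2 : Real.sqrt 2 * Real.sqrt 2 = 2 := Real.mul_self_sqrt (by norm_num)
  have h2' : Real.sqrt 2 ≠ 0 := by positivity
  simp only [dt, cubo]
  push_cast
  field_simp
  have : Real.sqrt 2 ^ 2 = 2 := Real.sq_sqrt (by norm_num)
  rw [this]; ring

theorem cubo_norm (i : Fin 12) : ‖cubo i‖ = 1 := by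
  have h := cubo_inner i i
  rw [cuboZ_self, real_inner_self_eq_norm_sq] at h
  have h1 : ‖cubo i‖ ^ 2 = 1 := by rw [h]; norm_num
  have h0 := norm_nonneg (cubo i)
  nlinarith

theorem cubo_sep (i j : Fin 12) (h : i ≠ j) : inner ℝ (cubo i) (cubo j) ≤ (1 / 2 : ℝ) := by
  rw [cubo_inner]
  have := cuboZ_ne i j h
  have h' : ((cuboZ i 0 * cuboZ j 0 + cuboZ i 1 * cuboZ j 1 + cuboZ i 2 * cuboZ j 2 : ℤ) : ℝ) ≤ 1 := by
    exact_mod_cast this
  linarith

theorem cubo_inj : Function.Injective cubo := by
  intro i j h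
  by_contra hne
  have h1 := cubo_sep i j hne
  rw [h, real_inner_self_eq_norm_sq, cubo_norm] at h1
  norm_num at h1

theorem act_inner (g : O3) (x y : E3) : inner ℝ (act (g, x)) (act (g, y)) = inner ℝ x y := by
  have h1 : act (g, x) = toIso g⁻¹ x := by rw [toIso_apply]; rfl
  have h2 : act (g, y) = toIso g⁻¹ y := by rw [toIso_apply]; rfl
  rw [h1, h2, LinearIsometryEquiv.inner_map_map]

theorem act_norm (g : O3) (x : E3) : ‖act (g, x)‖ = ‖x‖ := O3_norm g⁻¹ x

/-- the uncovered part of the sphere -/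
def Hset (T : Finset E3) : Set E3 := {x : E3 | ‖x‖ = 1} \ ⋃ u ∈ T, cap u (Real.pi / 3)

theorem measurableSet_union (T : Finset E3) (r : ℝ) : MeasurableSet (⋃ u ∈ T, cap u r) :=
  Finset.measurableSet_biUnion T fun u _ => measurableSet_cap u r

theorem measurableSet_H (T : Finset E3) : MeasurableSet (Hset T) :=
  (measurable_norm (measurableSet_singleton 1)).diff (measurableSet_union T _)

theorem count_bound (T : Finset E3) (hT : ∀ x ∈ T, ‖x‖ = 1)
    (hsep : ∀ x ∈ T, ∀ y ∈ T, x ≠ y → inner ℝ x y ≤ (1 / 2 : ℝ)) (g : O3) :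
    T.card + ∑ i : Fin 12, (Hset T).indicator (fun _ => (1 : ℕ)) (act (g, cubo i)) ≤ 12 := by
  classical
  set I : Finset (Fin 12) := Finset.univ.filter (fun i => act (g, cubo i) ∈ Hset T) with hI
  have hsum : ∑ i : Fin 12, (Hset T).indicator (fun _ => (1 : ℕ)) (act (g, cubo i)) = I.card := by
    rw [hI, Finset.card_filter]
    refine Finset.sum_congr rfl fun i _ => ?_
    by_cases h : act (g, cubo i) ∈ Hset T
    · rw [Set.indicator_of_mem h, if_pos h]
    · rw [Set.indicator_of_notMem h, if_neg h]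
  rw [hsum]
  have hinj : Function.Injective (fun i => act (g, cubo i)) := by
    intro i j h
    by_contra hne
    have h1 := cubo_sep i j hne
    rw [← act_inner g, show act (g, cubo i) = act (g, cubo j) from h, real_inner_self_eq_norm_sq,
      act_norm, cubo_norm] at h1
    norm_num at h1
  set J : Finset E3 := I.image (fun i => act (g, cubo i)) with hJ
  have hJcard : J.card = I.card := Finset.card_image_of_injective _ hinj
  have hJH : ∀ y ∈ J, y ∈ Hset T := by
    intro y hy
    obtain ⟨i, hi, rfl⟩ := Finset.mem_image.mp hy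
    rw [hI, Finset.mem_filter] at hi
    exact hi.2
  have hfar : ∀ y ∈ J, ∀ u ∈ T, inner ℝ u y ≤ (1 / 2 : ℝ) := by
    intro y hy u hu
    have h := hJH y hy
    by_contra hcon
    push Not at hcon
    apply h.2
    simp only [Set.mem_iUnion]
    exact ⟨u, hu, h.1, (angle_lt_pi_div_three_iff u y (hT u hu) h.1).mpr hcon⟩
  have hdisj : Disjoint T J := by
    rw [Finset.disjoint_left]
    intro u hu hu'
    have := hfar u hu' u hu
    rw [real_inner_self_eq_norm_sq, hT u hu] at this
    norm_num at this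
  have := kissingE (T ∪ J) ?_ ?_
  · rw [Finset.card_union_of_disjoint hdisj, hJcard] at this
    exact this
  · intro x hx
    rcases Finset.mem_union.mp hx with h | h
    · exact hT x h
    · exact (hJH x h).1
  · intro x hx y hy hne
    rcases Finset.mem_union.mp hx with h | h <;> rcases Finset.mem_union.mp hy with h' | h'
    · exact hsep x h y h' hne
    · exact hfar y h' x h
    · rw [real_inner_comm]; exact hfar x h y h'
    · obtain ⟨i, hi, rfl⟩ := Finset.mem_image.mp h
      obtain ⟨j, hj, rfl⟩ := Finset.mem_image.mp h'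
      rw [act_inner]
      exact cubo_sep i j (fun hij => hne (by rw [hij]))

theorem union_lower (μ : Measure E3) [IsFiniteMeasure μ] (hμ : InvSphere μ)
    (T : Finset E3) (hT : ∀ x ∈ T, ‖x‖ = 1)
    (hsep : ∀ x ∈ T, ∀ y ∈ T, x ≠ y → inner ℝ x y ≤ (1 / 2 : ℝ)) :
    (T.card : ENNReal) * μ Set.univ ≤ 12 * μ (⋃ u ∈ T, cap u (Real.pi / 3)) := by
  have hH := measurableSet_H T
  have hA : ∀ i : Fin 12, haar3 {g : O3 | act (g, cubo i) ∈ Hset T} * μ Set.univ
      = μ (Hset T) * haar3 Set.univ := fun i =>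
    (avg_formula μ hμ (Hset T) hH (cubo i) (cubo_norm i)).symm
  have hmeas : ∀ i : Fin 12, MeasurableSet {g : O3 | act (g, cubo i) ∈ Hset T} := by
    intro i
    have : Measurable fun g : O3 => act (g, cubo i) :=
      (continuous_act.comp (Continuous.prodMk_left (cubo i))).measurable
    exact this hH
  have hint : (T.card : ENNReal) * haar3 Set.univ
      + ∑ i : Fin 12, haar3 {g : O3 | act (g, cubo i) ∈ Hset T} ≤ 12 * haar3 Set.univ := by
    have e1 : ∑ i : Fin 12, haar3 {g : O3 | act (g, cubo i) ∈ Hset T}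
        = ∫⁻ g, ∑ i : Fin 12, ({g : O3 | act (g, cubo i) ∈ Hset T}).indicator 1 g ∂haar3 := by
      rw [lintegral_finset_sum]
      · refine Finset.sum_congr rfl fun i _ => ?_
        rw [lintegral_indicator_one (hmeas i)]
      · intro i _
        exact (measurable_one.indicator (hmeas i))
    have e2 : (T.card : ENNReal) * haar3 Set.univ = ∫⁻ _ : O3, (T.card : ENNReal) ∂haar3 := by
      rw [lintegral_const]
    have e3 : (12 : ENNReal) * haar3 Set.univ = ∫⁻ _ : O3, (12 : ENNReal) ∂haar3 := by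
      rw [lintegral_const]
    rw [e1, e2, e3, ← lintegral_add_left measurable_const]
    apply lintegral_mono
    intro g
    have hc := count_bound T hT hsep g
    have hcast : ((T.card + ∑ i : Fin 12, (Hset T).indicator (fun _ => (1 : ℕ)) (act (g, cubo i)) : ℕ) : ENNReal)
        ≤ ((12 : ℕ) : ENNReal) := by exact_mod_cast hc
    push_cast at hcast
    refine le_trans (le_of_eq ?_) hcast
    show (T.card : ENNReal) + _ = _
    congr 1
    refine Finset.sum_congr rfl fun i _ => ?_
    by_cases h : act (g, cubo i) ∈ Hset T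
    · rw [Set.indicator_of_mem h, Set.indicator_of_mem (show g ∈ {g : O3 | act (g, cubo i) ∈ Hset T} from h)]
      simp
    · rw [Set.indicator_of_notMem h, Set.indicator_of_notMem (show g ∉ {g : O3 | act (g, cubo i) ∈ Hset T} from h)]
      simp
  have h12 : (T.card : ENNReal) * μ Set.univ + 12 * μ (Hset T) ≤ 12 * μ Set.univ := by
    have hpos := haar3_univ_pos.ne'
    have hfin : haar3 Set.univ ≠ ⊤ := measure_ne_top _ _
    rw [← ENNReal.mul_le_mul_iff_left hpos hfin]
    calc ((T.card : ENNReal) * μ Set.univ + 12 * μ (Hset T)) * haar3 Set.univ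
        = (T.card : ENNReal) * haar3 Set.univ * μ Set.univ
            + ∑ i : Fin 12, haar3 {g : O3 | act (g, cubo i) ∈ Hset T} * μ Set.univ := by
          simp_rw [hA]
          rw [Finset.sum_const, Finset.card_univ, Fintype.card_fin, nsmul_eq_mul]
          push_cast; ring
      _ = ((T.card : ENNReal) * haar3 Set.univ
            + ∑ i : Fin 12, haar3 {g : O3 | act (g, cubo i) ∈ Hset T}) * μ Set.univ := by
          rw [add_mul, Finset.sum_mul]
      _ ≤ (12 * haar3 Set.univ) * μ Set.univ := by gcongr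
      _ = 12 * μ Set.univ * haar3 Set.univ := by ring
  have hsplit : μ Set.univ = μ (Hset T) + μ (⋃ u ∈ T, cap u (Real.pi / 3)) := by
    have hU := measurableSet_union T (Real.pi / 3)
    have h1 : μ Set.univ = μ (Hset T ∪ ⋃ u ∈ T, cap u (Real.pi / 3)) := by
      apply measure_congr
      have : ∀ᵐ x ∂μ, ‖x‖ = 1 := by rw [ae_iff]; exact hμ.supp
      filter_upwards [this] with x hx
      apply propext
      constructor
      · intro _
        by_cases h : x ∈ ⋃ u ∈ T, cap u (Real.pi / 3)
        · exact Or.inr h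
        · exact Or.inl ⟨hx, h⟩
      · intro _; trivial
    rw [h1, measure_union]
    · rw [Set.disjoint_left]
      intro x hx hx'
      exact hx.2 hx'
    · exact hU
  rw [hsplit, mul_add, mul_add, add_comm (12 * μ (Hset T))] at h12
  have hfinH : 12 * μ (Hset T) ≠ ⊤ := ENNReal.mul_ne_top (by norm_num) (measure_ne_top _ _)
  have := (ENNReal.add_le_add_iff_right hfinH).mp h12
  rw [hsplit, mul_add]
  exact this

end Pool.Agent.Kiss47
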