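import Mathlib
import Pool.Agent.Lib_helper47.CapAverage

/-!
The area of a cap of angular radius `π/6`.
-/

set_option autoImplicit false
set_option linter.unusedVariables false

open MeasureTheory Metric Set

namespace Pool.Agent.Kiss47

/-- the cone measure on the sphere -/
noncomputable def sig : Measure E3 :=
  (volume.restrict (ball (0 : E3) 1)).map (fun x => ‖x‖⁻¹ • x)

theorem measurable_proj : Measurable (fun x : E3 => ‖x‖⁻¹ • x) := by fun_prop

instance : IsFiniteMeasure sig := by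
  have h : IsFiniteMeasure (volume.restrict (ball (0 : E3) 1)) :=
    ⟨by rw [Measure.restrict_apply_univ]; exact measure_ball_lt_top⟩
  unfold sig
  exact Measure.isFiniteMeasure_map _ _

theorem sig_apply (A : Set E3) (hA : MeasurableSet A) :
    sig A = volume ({x : E3 | ‖x‖⁻¹ • x ∈ A} ∩ ball 0 1) := by
  unfold sig
  rw [Measure.map_apply measurable_proj hA, Measure.restrict_apply (measurable_proj hA)]
  rfl

theorem sig_univ : sig Set.univ = volume (ball (0 : E3) 1) := by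
  rw [sig_apply _ MeasurableSet.univ]
  congr 1
  ext x; simp

theorem sig_inv : InvSphere sig where
  inv := by
    intro e A hA
    have hA' : MeasurableSet (e ⁻¹' A) := e.continuous.measurable hA
    rw [sig_apply _ hA, sig_apply _ hA']
    have : {x : E3 | ‖x‖⁻¹ • x ∈ e ⁻¹' A} ∩ ball 0 1
        = e ⁻¹' ({x : E3 | ‖x‖⁻¹ • x ∈ A} ∩ ball 0 1) := by
      ext x
      simp [e.norm_map]
    rw [this]
    apply (e.measurePreserving).measure_preimage
    exact ((measurable_proj hA).inter measurableSet_ball).nullMeasurableSet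
  supp := by
    have hM : MeasurableSet {x : E3 | ‖x‖ ≠ 1} :=
      measurable_norm (measurableSet_singleton (1 : ℝ)).compl
    rw [sig_apply _ hM]
    apply measure_mono_null (t := {0})
    · intro x hx
      by_contra h
      have hx0 : ‖x‖ ≠ 0 := by simpa using h
      apply hx.1
      rw [norm_smul, norm_inv, norm_norm, inv_mul_cancel₀ hx0]
    · exact measure_singleton 0

theorem disc_area (c : ℝ) (hc : 0 ≤ c) :
    volume {w : Fin 2 → ℝ | w 0 ^ 2 + w 1 ^ 2 < c} = ENNReal.ofReal (Real.pi * c) := by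
  have h1 : {w : Fin 2 → ℝ | w 0 ^ 2 + w 1 ^ 2 < c}
      = (WithLp.toLp 2) ⁻¹' (ball (0 : EuclideanSpace ℝ (Fin 2)) (Real.sqrt c)) := by
    ext w
    rw [Set.mem_preimage, mem_ball_zero_iff, EuclideanSpace.norm_eq, Fin.sum_univ_two]
    simp only [Real.norm_eq_abs, sq_abs, Set.mem_ofPred_eq]
    rw [Real.sqrt_lt_sqrt_iff (by positivity)]
  rw [h1, (PiLp.volume_preserving_toLp (Fin 2)).measure_preimage measurableSet_ball.nullMeasurableSet,
    EuclideanSpace.volume_ball_fin_two, ← ENNReal.ofReal_pow (Real.sqrt_nonneg c),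
    Real.sq_sqrt hc, ← ENNReal.ofReal_mul hc, mul_comm]

theorem slab_volume (I : Set ℝ) (hI : MeasurableSet I) (h : ℝ → ℝ) (hm : Measurable h)
    (hh : ∀ z ∈ I, 0 ≤ h z) :
    volume {x : E3 | x 2 ∈ I ∧ x 0 ^ 2 + x 1 ^ 2 < h (x 2)}
      = ∫⁻ z in I, ENNReal.ofReal (Real.pi * h z) := by
  have hp1 := PiLp.volume_preserving_ofLp (Fin 3)
  have hp2 := MeasureTheory.volume_preserving_piFinSuccAbove (fun _ : Fin 3 => ℝ) 2
  have hp : MeasurePreserving (fun x : E3 => MeasurableEquiv.piFinSuccAbove (fun _ : Fin 3 => ℝ) 2 (WithLp.ofLp x))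
      volume volume := hp2.comp hp1
  set S : Set (ℝ × (Fin 2 → ℝ)) := {z | z.1 ∈ I ∧ z.2 0 ^ 2 + z.2 1 ^ 2 < h z.1} with hS
  have hSm : MeasurableSet S := by
    have h2 : MeasurableSet {z : ℝ × (Fin 2 → ℝ) | z.2 0 ^ 2 + z.2 1 ^ 2 < h z.1} :=
      measurableSet_lt (by fun_prop) (hm.comp measurable_fst)
    exact (measurable_fst hI).inter h2
  have hpre : {x : E3 | x 2 ∈ I ∧ x 0 ^ 2 + x 1 ^ 2 < h (x 2)}
      = (fun x : E3 => MeasurableEquiv.piFinSuccAbove (fun _ : Fin 3 => ℝ) 2 (WithLp.ofLp x)) ⁻¹' S := by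
    ext x
    simp only [hS, Set.mem_preimage, Set.mem_ofPred_eq]
    have e0 : (MeasurableEquiv.piFinSuccAbove (fun _ : Fin 3 => ℝ) 2 (WithLp.ofLp x)).1 = x 2 := rfl
    have e1 : (MeasurableEquiv.piFinSuccAbove (fun _ : Fin 3 => ℝ) 2 (WithLp.ofLp x)).2 0 = x 0 := rfl
    have e2 : (MeasurableEquiv.piFinSuccAbove (fun _ : Fin 3 => ℝ) 2 (WithLp.ofLp x)).2 1 = x 1 := rfl
    rw [e0, e1, e2]
  rw [hpre, hp.measure_preimage hSm.nullMeasurableSet]
  change (volume.prod volume) S = _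
  rw [Measure.prod_apply hSm, ← lintegral_indicator hI]
  apply lintegral_congr
  intro z
  by_cases hz : z ∈ I
  · rw [Set.indicator_of_mem hz]
    rw [← disc_area (h z) (hh z hz)]
    congr 1
    ext w
    simp [hS, hz]
  · rw [Set.indicator_of_notMem hz]
    have : Prod.mk z ⁻¹' S = ∅ := by
      ext w
      simp [hS, hz]
    rw [this, measure_empty]

/-- the pole -/
noncomputable def pole : E3 := EuclideanSpace.single 2 1

theorem pole_norm : ‖pole‖ = 1 := by simp [pole]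

theorem cone_subset : {x : E3 | ‖x‖⁻¹ • x ∈ cap pole (Real.pi / 6)} ∩ ball 0 1
    ⊆ {x : E3 | x 2 ∈ Ioc 0 (Real.sqrt 3 / 2) ∧ x 0 ^ 2 + x 1 ^ 2 < x 2 ^ 2 / 3}
      ∪ {x : E3 | x 2 ∈ Ioc (Real.sqrt 3 / 2) 1 ∧ x 0 ^ 2 + x 1 ^ 2 < 1 - x 2 ^ 2} := by
  intro x hx
  obtain ⟨⟨h1, h2⟩, h3⟩ := hx
  have hx0 : x ≠ 0 := by
    rintro rfl
    simp at h1
  have hn : 0 < ‖x‖ := norm_pos_iff.mpr hx0
  rw [InnerProductGeometry.angle_smul_right_of_pos _ _ (inv_pos.mpr hn)] at h2
  have hc : Real.cos (InnerProductGeometry.angle pole x) = x 2 / ‖x‖ := by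
    rw [InnerProductGeometry.cos_angle, pole_norm, one_mul]
    congr 1
    simp [pole, EuclideanSpace.inner_single_left]
  have h4 : Real.sqrt 3 / 2 < x 2 / ‖x‖ := by
    rw [← hc, ← Real.cos_pi_div_six]
    exact Real.cos_lt_cos_of_nonneg_of_le_pi (InnerProductGeometry.angle_nonneg _ _)
      (by linarith [Real.pi_pos]) h2
  have h5 : Real.sqrt 3 / 2 * ‖x‖ < x 2 := (lt_div_iff₀ hn).mp h4
  have hs3 : Real.sqrt 3 ^ 2 = 3 := Real.sq_sqrt (by norm_num)
  have hs0 : 0 < Real.sqrt 3 := by positivity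
  have hx2 : 0 < x 2 := lt_trans (by positivity) h5
  have hnsq : ‖x‖ ^ 2 = x 0 ^ 2 + x 1 ^ 2 + x 2 ^ 2 := by
    rw [EuclideanSpace.norm_sq_eq, Fin.sum_univ_three]
    simp only [Real.norm_eq_abs, sq_abs]
  have hlt1 : ‖x‖ < 1 := by simpa using h3
  have h6 : 3 / 4 * ‖x‖ ^ 2 < x 2 ^ 2 := by
    have : (Real.sqrt 3 / 2 * ‖x‖) ^ 2 < x 2 ^ 2 := by
      apply pow_lt_pow_left₀ h5 (by positivity) (by norm_num)
    have e : (Real.sqrt 3 / 2 * ‖x‖) ^ 2 = 3 / 4 * ‖x‖ ^ 2 := by
      rw [mul_pow, div_pow, hs3]; ring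
    rw [e] at this; exact this
  have h7 : ‖x‖ ^ 2 < 1 := by nlinarith
  rcases le_or_gt (x 2) (Real.sqrt 3 / 2) with h | h
  · left
    refine ⟨⟨hx2, h⟩, ?_⟩
    nlinarith
  · right
    refine ⟨⟨h, ?_⟩, ?_⟩
    · nlinarith [sq_nonneg (x 0), sq_nonneg (x 1)]
    · nlinarith

theorem lint_pow (a b : ℝ) (hab : a ≤ b) (f F : ℝ → ℝ) (hf : Continuous f)
    (hF : ∀ x, HasDerivAt F (f x) x) (hpos : ∀ x ∈ Ioc a b, 0 ≤ f x) :
    ∫⁻ z in Ioc a b, ENNReal.ofReal (f z) = ENNReal.ofReal (F b - F a) := by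
  have h1 : ∫ z in a..b, f z = F b - F a :=
    intervalIntegral.integral_eq_sub_of_hasDerivAt (fun x _ => hF x) (hf.intervalIntegrable a b)
  rw [intervalIntegral.integral_of_le hab] at h1
  rw [← h1, ofReal_integral_eq_lintegral_ofReal]
  · exact (hf.integrableOn_Icc (a := a) (b := b)).mono_set Ioc_subset_Icc_self
  · filter_upwards [ae_restrict_mem measurableSet_Ioc] with x hx
    exact hpos x hx

theorem sig_cap_le : sig (cap pole (Real.pi / 6))
    ≤ ENNReal.ofReal ((1 - Real.sqrt 3 / 2) / 2) * sig Set.univ := by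
  rw [sig_univ, EuclideanSpace.volume_ball_fin_three, sig_apply _ (measurableSet_cap _ _)]
  refine (measure_mono cone_subset).trans ((measure_union_le _ _).trans ?_)
  have hs3 : Real.sqrt 3 ^ 2 = 3 := Real.sq_sqrt (by norm_num)
  have hs0 : 0 < Real.sqrt 3 := by positivity
  have hs2 : Real.sqrt 3 ≤ 2 := by nlinarith
  rw [slab_volume (Ioc 0 (Real.sqrt 3 / 2)) measurableSet_Ioc (fun z => z ^ 2 / 3) (by fun_prop)
    (fun z _ => by positivity)]
  rw [slab_volume (Ioc (Real.sqrt 3 / 2) 1) measurableSet_Ioc (fun z => 1 - z ^ 2) (by fun_prop)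
    (fun z hz => by nlinarith [hz.1, hz.2])]
  rw [lint_pow 0 (Real.sqrt 3 / 2) (by positivity) (fun z => Real.pi * (z ^ 2 / 3))
    (fun z => Real.pi * (z ^ 3 / 9)) (by fun_prop) ?_ (fun z _ => by positivity)]
  rw [lint_pow (Real.sqrt 3 / 2) 1 (by linarith) (fun z => Real.pi * (1 - z ^ 2))
    (fun z => Real.pi * (z - z ^ 3 / 3)) (by fun_prop) ?_ ?_]
  · rw [← ENNReal.ofReal_add, ENNReal.ofReal_one]
    simp only [one_pow, one_mul]
    rw [← ENNReal.ofReal_mul]
    · apply ENNReal.ofReal_le_ofReal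
      have h3 : Real.sqrt 3 ^ 3 = 3 * Real.sqrt 3 := by rw [pow_succ, hs3]
      have : (Real.sqrt 3 / 2) ^ 3 = 3 * Real.sqrt 3 / 8 := by rw [div_pow, h3]; norm_num
      rw [this]
      apply le_of_eq
      ring
    · linarith
    · rw [zero_pow (by norm_num)]
      have : 0 ≤ Real.pi * ((Real.sqrt 3 / 2) ^ 3 / 9) := by positivity
      linarith
    · have h3 : Real.sqrt 3 ^ 3 = 3 * Real.sqrt 3 := by rw [pow_succ, hs3]
      have : (Real.sqrt 3 / 2) ^ 3 = 3 * Real.sqrt 3 / 8 := by rw [div_pow, h3]; norm_num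
      rw [this, ← mul_sub]
      apply mul_nonneg Real.pi_pos.le
      nlinarith
  · intro x
    have h := (((hasDerivAt_id x).sub ((hasDerivAt_pow 3 x).div_const 3)).const_mul Real.pi)
    refine HasDerivAt.congr_deriv h ?_
    push_cast; ring
  · intro z hz
    apply mul_nonneg Real.pi_pos.le
    nlinarith [hz.1, hz.2]
  · intro x
    have h := (((hasDerivAt_pow 3 x).div_const 9).const_mul Real.pi)
    refine HasDerivAt.congr_deriv h ?_
    push_cast; ring

/-- Area of the cap of angular radius `π/6` for an arbitrary invariant measure. -/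
theorem inv_cap_le (μ : Measure E3) [IsFiniteMeasure μ] (hμ : InvSphere μ) (u : E3)
    (hu : ‖u‖ = 1) :
    μ (cap u (Real.pi / 6)) ≤ ENNReal.ofReal ((1 - Real.sqrt 3 / 2) / 2) * μ Set.univ := by
  have hrot : μ (cap u (Real.pi / 6)) = μ (cap pole (Real.pi / 6)) := by
    obtain ⟨g, hg⟩ := exists_O3 pole u pole_norm hu
    rw [← hμ.inv (toIso g) _ (measurableSet_cap u _)]
    congr 1
    ext x
    simp only [cap, Set.mem_preimage, Set.mem_ofPred_eq, LinearIsometryEquiv.norm_map]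
    have : InnerProductGeometry.angle u (toIso g x) = InnerProductGeometry.angle pole x := by
      rw [← hg, ← toIso_apply]
      exact LinearIsometry.angle_map (toIso g).toLinearIsometry pole x
    rw [this]
  rw [hrot]
  have h := inv_prop μ sig hμ sig_inv (cap pole (Real.pi / 6)) (measurableSet_cap _ _)
  have hpos : sig Set.univ ≠ 0 := by
    rw [sig_univ]; exact (measure_ball_pos volume (0 : E3) one_pos).ne'
  have hfin : sig Set.univ ≠ ⊤ := measure_ne_top _ _
  rw [← ENNReal.mul_le_mul_iff_left hpos hfin, h]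
  calc sig (cap pole (Real.pi / 6)) * μ Set.univ
      ≤ (ENNReal.ofReal ((1 - Real.sqrt 3 / 2) / 2) * sig Set.univ) * μ Set.univ := by
        gcongr; exact sig_cap_le
    _ = _ := by ring

end Pool.Agent.Kiss47
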