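import Mathlib

set_option autoImplicit false

/-!
# The dichotomy (abstract form)

`K` is a finite dimensional real inner product space (`L²₀(Z)`), `A = 1 - P_Z P_U`, `B = 1 - P_Z P_V`,
`m k = mmse(k | W)`.
-/

namespace LOC

open RealInnerProductSpace

variable {K : Type*} [NormedAddCommGroup K] [InnerProductSpace ℝ K]

/-- The property (H_eta). -/
def HE (A B : K →ₗ[ℝ] K) (η : ℝ) : Prop :=
  ∀ k l : K, η * ⟪k, l⟫ ^ 2 ≤ ⟪k, A k⟫ * ⟪l, B l⟫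

theorem HE_symm {A B : K →ₗ[ℝ] K} {η : ℝ} (h : HE A B η) : HE B A η := by
  intro a b
  have := h b a
  have e : ⟪b, a⟫ = ⟪a, b⟫ := real_inner_comm _ _
  rw [e] at this
  linarith [mul_comm ⟪b, A b⟫ ⟪a, B a⟫]

theorem HE_ABA {A B : K →ₗ[ℝ] K}
    (pA : ∀ k, 0 ≤ ⟪k, A k⟫) (pB : ∀ k, 0 ≤ ⟪k, B k⟫) {η : ℝ} (h : HE A B η) (k : K) :
    η * ⟪k, A k⟫ ≤ ⟪A k, B (A k)⟫ := by
  have h1 := h k (A k)
  rcases eq_or_lt_of_le (pA k) with h0 | h0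
  · rw [← h0]; simpa using pB (A k)
  · by_contra hc
    push Not at hc
    have : ⟪k, A k⟫ * ⟪A k, B (A k)⟫ < ⟪k, A k⟫ * (η * ⟪k, A k⟫) :=
      mul_lt_mul_of_pos_left hc h0
    nlinarith

/-- KEY. -/
theorem KEY {A B : K →ₗ[ℝ] K} (hA : A.IsSymmetric) (hB : B.IsSymmetric)
    (pA : ∀ k, 0 ≤ ⟪k, A k⟫) (pB : ∀ k, 0 ≤ ⟪k, B k⟫) {η : ℝ} (h : HE A B η) (hη : η < 1)
    {m : K → ℝ}
    (hm : ∀ k k' l', 2 * ⟪k, A k'⟫ + 2 * ⟪k, B l'⟫ - ⟪k', A k'⟫ - ⟪l', B l'⟫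
      - 2 * ⟪A k', B l'⟫ ≤ m k) (k : K) :
    ⟪k, A k⟫ + ⟪k, B k⟫ - 2 * ⟪A k, B k⟫ ≤ (1 - η) * m k := by
  set c : ℝ := (1 - η)⁻¹ with hc
  have hpos : 0 < 1 - η := by linarith
  have hcpos : 0 < c := inv_pos.2 hpos
  have hcc : c * (1 - η) = 1 := inv_mul_cancel₀ hpos.ne'
  set x : K := k - B k with hx
  have h0 := hm k (c • x) (k - A (c • x))
  have hABA := HE_ABA pA pB h x
  have hBAB := HE_ABA pB pA (HE_symm h) k
  have e1 : ⟪k, A (c • x)⟫ = c * ⟪k, A x⟫ := by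
    rw [map_smul, real_inner_smul_right]
  have e2 : ⟪c • x, A (c • x)⟫ = c ^ 2 * ⟪x, A x⟫ := by
    rw [map_smul, real_inner_smul_right, real_inner_smul_left]; ring
  have sB : ∀ a b : K, ⟪a, B b⟫ = ⟪B a, b⟫ := fun a b => (hB a b).symm
  have e3 : ⟪k, B (k - A (c • x))⟫ = ⟪k, B k⟫ - c * ⟪B k, A x⟫ := by
    rw [map_sub, inner_sub_right, map_smul, map_smul, real_inner_smul_right, sB k (A x)]
  have e4 : ⟪A (c • x), B (k - A (c • x))⟫ = c * ⟪B k, A x⟫ - c ^ 2 * ⟪A x, B (A x)⟫ := by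
    rw [map_sub, inner_sub_right, map_smul, map_smul, real_inner_smul_right,
      real_inner_smul_left, real_inner_smul_left, real_inner_comm]
    ring
  have e5 : ⟪k - A (c • x), B (k - A (c • x))⟫
      = ⟪k, B k⟫ - 2 * c * ⟪B k, A x⟫ + c ^ 2 * ⟪A x, B (A x)⟫ := by
    rw [inner_sub_left, e3, e4]; ring
  have e6 : ⟪x, A x⟫ = ⟪k, A x⟫ - ⟪B k, A x⟫ := by
    rw [hx, inner_sub_left]
  have e7 : ⟪x, A x⟫ = ⟪k, A k⟫ - 2 * ⟪A k, B k⟫ + ⟪B k, A (B k)⟫ := by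
    rw [hx, map_sub, inner_sub_left, inner_sub_right, inner_sub_right]
    have : ⟪k, A (B k)⟫ = ⟪A k, B k⟫ := (hA k (B k)).symm
    rw [this, real_inner_comm (A k) (B k)]; ring
  rw [e1, e2, e3, e4, e5] at h0
  have h1 : 2 * c * ⟪x, A x⟫ - c ^ 2 * ⟪x, A x⟫ + ⟪k, B k⟫ + c ^ 2 * ⟪A x, B (A x)⟫ ≤ m k := by
    have e6' : ⟪k, A x⟫ = ⟪x, A x⟫ + ⟪B k, A x⟫ := by linarith
    rw [e6'] at h0
    linarith
  have h2 : 2 * c * ⟪x, A x⟫ - c ^ 2 * ⟪x, A x⟫ + ⟪k, B k⟫ + c ^ 2 * (η * ⟪x, A x⟫) ≤ m k := by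
    have := mul_le_mul_of_nonneg_left hABA (sq_nonneg c)
    linarith
  have h3 : c * ⟪x, A x⟫ + ⟪k, B k⟫ ≤ m k := by
    have h5 : c ^ 2 * (1 - η) = c := by rw [pow_two, mul_assoc, hcc, mul_one]
    have h6 : c ^ 2 * ⟪x, A x⟫ - c ^ 2 * (η * ⟪x, A x⟫) = c * ⟪x, A x⟫ := by
      calc c ^ 2 * ⟪x, A x⟫ - c ^ 2 * (η * ⟪x, A x⟫)
          = (c ^ 2 * (1 - η)) * ⟪x, A x⟫ := by ring
        _ = c * ⟪x, A x⟫ := by rw [h5]
    linarith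
  have h4 : ⟪x, A x⟫ + (1 - η) * ⟪k, B k⟫ ≤ (1 - η) * m k := by
    have := mul_le_mul_of_nonneg_left h3 hpos.le
    have h5 : (1 - η) * (c * ⟪x, A x⟫ + ⟪k, B k⟫) = ⟪x, A x⟫ + (1 - η) * ⟪k, B k⟫ := by
      have : (1 - η) * (c * ⟪x, A x⟫ + ⟪k, B k⟫)
        = (c * (1 - η)) * ⟪x, A x⟫ + (1 - η) * ⟪k, B k⟫ := by ring
      rw [this, hcc, one_mul]
    linarith
  linarith

/-- The extremal vector. -/
theorem exists_extremal [FiniteDimensional ℝ K] [Nontrivial K] {A B : K →ₗ[ℝ] K}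
    (hA : A.IsSymmetric) (hB : B.IsSymmetric)
    (pA : ∀ k, 0 ≤ ⟪k, A k⟫) (pB : ∀ k, 0 ≤ ⟪k, B k⟫) :
    ∃ η : ℝ, 0 ≤ η ∧ HE A B η ∧ ∃ g : K, g ≠ 0 ∧ ⟪A g, B g⟫ = η * ‖g‖ ^ 2 := by
  classical
  have cA : Continuous A := A.continuous_of_finiteDimensional
  have cB : Continuous B := B.continuous_of_finiteDimensional
  let q : K × K → ℝ := fun p => ⟪p.1, A p.1⟫ + ⟪p.2, B p.2⟫
  have cq : Continuous q := by
    refine (continuous_fst.inner (cA.comp continuous_fst)).add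
      (continuous_snd.inner (cB.comp continuous_snd))
  have ci : Continuous (fun p : K × K => (⟪p.1, p.2⟫ : ℝ)) := continuous_fst.inner continuous_snd
  have q0 : ∀ p, 0 ≤ q p := fun p => add_nonneg (pA _) (pB _)
  let S : Set (K × K) := Metric.sphere 0 1
  have hS : IsCompact S := isCompact_sphere 0 1
  obtain ⟨k0, hk0⟩ : ∃ k : K, ‖k‖ = 1 := by
    obtain ⟨v, hv⟩ := exists_ne (0 : K)
    exact ⟨(‖v‖)⁻¹ • v, by rw [norm_smul, norm_inv, norm_norm, inv_mul_cancel₀ (norm_ne_zero_iff.2 hv)]⟩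
  have hp0 : (k0, k0) ∈ S := by simp [S, hk0]
  let R : ℝ := q (k0, k0)
  let G : Set (ℝ × (K × K)) :=
    (Set.Icc (0 : ℝ) R ×ˢ S) ∩ {x | q x.2 - 2 * x.1 * ⟪x.2.1, x.2.2⟫ ≤ 0}
  have hG : IsCompact G := by
    refine (isCompact_Icc.prod hS).inter_right ?_
    refine isClosed_le ?_ continuous_const
    exact (cq.comp continuous_snd).sub ((continuous_const.mul continuous_fst).mul
      (ci.comp continuous_snd))
  have hGne : G.Nonempty := by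
    refine ⟨(R, (k0, k0)), ⟨⟨⟨q0 _, le_rfl⟩, hp0⟩, ?_⟩⟩
    show q (k0, k0) - 2 * R * ⟪k0, k0⟫ ≤ 0
    rw [real_inner_self_eq_norm_sq, hk0]
    have := q0 (k0, k0)
    show R - 2 * R * 1 ^ 2 ≤ 0
    have : 0 ≤ R := this
    linarith
  obtain ⟨⟨r, p⟩, hrp, hmin⟩ := hG.exists_isMinOn hGne continuous_fst.continuousOn
  obtain ⟨⟨⟨hr0, hrR⟩, hpS⟩, hle⟩ := hrp
  simp only [Set.mem_setOf_eq] at hr0 hrR hle hpS
  -- PSD on the sphere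
  have psdS : ∀ p' ∈ S, 2 * r * ⟪p'.1, p'.2⟫ ≤ q p' := by
    intro p' hp'
    by_contra hc
    push Not at hc
    have hi : 0 < ⟪p'.1, p'.2⟫ := by
      by_contra hn
      push Not at hn
      have := q0 p'
      nlinarith
    set r1 : ℝ := q p' / (2 * ⟪p'.1, p'.2⟫) with hr1
    have h1 : r1 < r := by
      rw [hr1, div_lt_iff₀ (by positivity)]; linarith
    have h2 : 0 ≤ r1 := div_nonneg (q0 _) (by positivity)
    have hmem : (r1, p') ∈ G := by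
      refine ⟨⟨⟨h2, by linarith⟩, hp'⟩, ?_⟩
      show q p' - 2 * r1 * ⟪p'.1, p'.2⟫ ≤ 0
      have : r1 * (2 * ⟪p'.1, p'.2⟫) = q p' := div_mul_cancel₀ _ (by positivity)
      linarith
    have := hmin hmem
    simp only [Set.mem_setOf_eq] at this
    linarith
  have psd : ∀ k l : K, 2 * r * ⟪k, l⟫ ≤ ⟪k, A k⟫ + ⟪l, B l⟫ := by
    intro k l
    rcases eq_or_ne (k, l) (0 : K × K) with h0 | h0
    · rw [Prod.mk_eq_zero] at h0
      rw [h0.1, h0.2]; simp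
    · have hn : 0 < ‖(k, l)‖ := norm_pos_iff.2 h0
      have hmem : ((‖(k, l)‖)⁻¹ • k, (‖(k, l)‖)⁻¹ • l) ∈ S := by
        have : ((‖(k, l)‖)⁻¹ • k, (‖(k, l)‖)⁻¹ • l) = (‖(k, l)‖)⁻¹ • (k, l) := rfl
        rw [this]
        simp only [S, mem_sphere_iff_norm, sub_zero]
        rw [norm_smul, norm_inv, norm_norm, inv_mul_cancel₀ hn.ne']
      have := psdS _ hmem
      simp only [q, map_smul, real_inner_smul_left, real_inner_smul_right] at this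
      have hinv : 0 < (‖(k, l)‖)⁻¹ := inv_pos.2 hn
      set s := (‖(k, l)‖)⁻¹
      have h3 : s ^ 2 * (2 * r * ⟪k, l⟫) ≤ s ^ 2 * (⟪k, A k⟫ + ⟪l, B l⟫) := by nlinarith
      exact le_of_mul_le_mul_left h3 (by positivity)
  -- the null vector
  have hnull : ⟪p.1, A p.1⟫ + ⟪p.2, B p.2⟫ = 2 * r * ⟪p.1, p.2⟫ := by
    have := psd p.1 p.2
    have h' : q p - 2 * r * ⟪p.1, p.2⟫ ≤ 0 := hle
    simp only [q] at h'
    linarith
  have hbil : ∀ k l : K, ⟪A p.1, k⟫ + ⟪B p.2, l⟫ - r * (⟪p.1, l⟫ + ⟪p.2, k⟫) = 0 := by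
    intro k l
    set b := ⟪A p.1, k⟫ + ⟪B p.2, l⟫ - r * (⟪p.1, l⟫ + ⟪p.2, k⟫) with hb
    set c := ⟪k, A k⟫ + ⟪l, B l⟫ - 2 * r * ⟪k, l⟫ with hc
    have hc0 : 0 ≤ c := by have := psd k l; linarith
    have hquad : ∀ t : ℝ, 0 ≤ c * (t * t) + (2 * b) * t + 0 := by
      intro t
      have := psd (p.1 + t • k) (p.2 + t • l)
      simp only [map_add, map_smul, inner_add_left, inner_add_right, real_inner_smul_left,
        real_inner_smul_right] at this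
      have s1 : ⟪k, A p.1⟫ = ⟪A p.1, k⟫ := real_inner_comm _ _
      have s2 : ⟪p.1, A k⟫ = ⟪A p.1, k⟫ := (hA p.1 k).symm
      have s3 : ⟪l, B p.2⟫ = ⟪B p.2, l⟫ := real_inner_comm _ _
      have s4 : ⟪p.2, B l⟫ = ⟪B p.2, l⟫ := (hB p.2 l).symm
      have s5 : ⟪k, p.2⟫ = ⟪p.2, k⟫ := real_inner_comm _ _
      rw [s1, s2, s3, s4, s5] at this
      rw [hc, hb]
      nlinarith
    have := discrim_le_zero hquad
    unfold discrim at this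
    nlinarith
  have hAg : A p.1 = r • p.2 := by
    refine ext_inner_right ℝ (fun k => ?_)
    have := hbil k 0
    simp only [inner_zero_right] at this
    rw [real_inner_smul_left]; linarith
  have hBh : B p.2 = r • p.1 := by
    refine ext_inner_right ℝ (fun l => ?_)
    have := hbil 0 l
    simp only [inner_zero_right] at this
    rw [real_inner_smul_left]; linarith
  refine ⟨r ^ 2, sq_nonneg r, ?_, ?_⟩
  · intro k l
    have hquad : ∀ t : ℝ, 0 ≤ ⟪l, B l⟫ * (t * t) + (-(2 * r * ⟪k, l⟫)) * t + ⟪k, A k⟫ := by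
      intro t
      have := psd k (t • l)
      simp only [map_smul, real_inner_smul_left, real_inner_smul_right] at this
      nlinarith
    have := discrim_le_zero hquad
    unfold discrim at this
    nlinarith
  · by_cases hg : p.1 = 0
    · have hh : p.2 ≠ 0 := by
        intro h2
        have : p = 0 := Prod.ext hg h2
        rw [this] at hpS
        simp [S] at hpS
      have hr : r = 0 := by
        rw [hg, map_zero] at hAg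
        rcases smul_eq_zero.1 hAg.symm with h | h
        · exact h
        · exact absurd h hh
      refine ⟨p.2, hh, ?_⟩
      rw [hBh, hg, hr]; simp
    · refine ⟨p.1, hg, ?_⟩
      rw [hAg, real_inner_smul_left]
      have : ⟪p.2, B p.1⟫ = ⟪B p.2, p.1⟫ := (hB p.2 p.1).symm
      rw [this, hBh, real_inner_smul_left, real_inner_self_eq_norm_sq]
      ring

/-- First half of the dichotomy: `(H_τ)`. -/
theorem HE_tau [FiniteDimensional ℝ K] [Nontrivial K] {A B : K →ₗ[ℝ] K}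
    (hA : A.IsSymmetric) (hB : B.IsSymmetric)
    (pA : ∀ k, 0 ≤ ⟪k, A k⟫) (pB : ∀ k, 0 ≤ ⟪k, B k⟫) {θ : ℝ} (hθ : 0 < θ)
    {m : K → ℝ} (hm1 : ∀ k, m k ≤ ‖k‖ ^ 2)
    (hm : ∀ k k' l', 2 * ⟪k, A k'⟫ + 2 * ⟪k, B l'⟫ - ⟪k', A k'⟫ - ⟪l', B l'⟫
      - 2 * ⟪A k', B l'⟫ ≤ m k)
    (hD : ∀ k, (‖k‖ ^ 2 - ⟪k, A k⟫) + (‖k‖ ^ 2 - ⟪k, B k⟫) - θ * (‖k‖ ^ 2 + (‖k‖ ^ 2 - m k)) ≤ 0) :
    HE A B (1 - θ) := by
  obtain ⟨η, hη0, hη, g, hg, hgg⟩ := exists_extremal hA hB pA pB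
  by_contra hcon
  have hlt : η < 1 - θ := by
    by_contra hc
    push Not at hc
    apply hcon
    intro k l
    have := hη k l
    have h2 := mul_le_mul_of_nonneg_right hc (sq_nonneg ⟪k, l⟫)
    linarith
  have hkey := KEY hA hB pA pB hη (by linarith) hm g
  have h1 := hD g
  have h2 := hm1 g
  have h3 : 0 < ‖g‖ ^ 2 := by positivity
  rw [hgg] at hkey
  have : 0 < (1 - η - θ) * (2 * ‖g‖ ^ 2 - m g) := mul_pos (by linarith) (by linarith)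
  nlinarith

/-- Second half of the dichotomy: `mX = mmse(X_i | W)`, `ζ = Z_i - E Z_i`. -/
theorem mmse_of_HE {A B : K →ₗ[ℝ] K}
    (pA : ∀ k, 0 ≤ ⟪k, A k⟫) (pB : ∀ k, 0 ≤ ⟪k, B k⟫) {θ : ℝ} (hθ : 0 < θ)
    (h : HE A B (1 - θ)) {ζ : K} {mX : ℝ}
    (hmX : ∀ k' l', 2 * ⟪ζ, A k'⟫ - ⟪k', A k'⟫ - ⟪l', B l'⟫ + 2 * ⟪A k', B l'⟫ ≤ mX) :
    ⟪ζ, A ζ⟫ ≤ θ * mX := by
  have hABA := HE_ABA pA pB h ζ
  have h0 := hmX (θ⁻¹ • ζ) (A (θ⁻¹ • ζ))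
  simp only [map_smul, real_inner_smul_left, real_inner_smul_right] at h0
  have hθ' : θ⁻¹ * θ = 1 := inv_mul_cancel₀ hθ.ne'
  have e1 : ⟪A ζ, B (A ζ)⟫ = ⟪A ζ, B (A ζ)⟫ := rfl
  have h1 : 2 * θ⁻¹ * ⟪ζ, A ζ⟫ - θ⁻¹ ^ 2 * ⟪ζ, A ζ⟫ + θ⁻¹ ^ 2 * ((1 - θ) * ⟪ζ, A ζ⟫) ≤ mX := by
    have := mul_le_mul_of_nonneg_left hABA (sq_nonneg θ⁻¹)
    linarith
  have h2 : θ⁻¹ * ⟪ζ, A ζ⟫ ≤ mX := by
    have e : 2 * θ⁻¹ * ⟪ζ, A ζ⟫ - θ⁻¹ ^ 2 * ⟪ζ, A ζ⟫ + θ⁻¹ ^ 2 * ((1 - θ) * ⟪ζ, A ζ⟫)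
        = 2 * θ⁻¹ * ⟪ζ, A ζ⟫ - (θ⁻¹ * θ) * (θ⁻¹ * ⟪ζ, A ζ⟫) := by ring
    rw [e, hθ'] at h1
    linarith
  have := mul_le_mul_of_nonneg_left h2 hθ.le
  have e : θ * (θ⁻¹ * ⟪ζ, A ζ⟫) = ⟪ζ, A ζ⟫ := by rw [← mul_assoc, mul_comm θ, hθ', one_mul]
  linarith

end LOC

/-- The dichotomy (abstract form), for one coordinate `ζ` at a time. -/
theorem LOC.dichotomy {K : Type*} [NormedAddCommGroup K] [InnerProductSpace ℝ K]
    [FiniteDimensional ℝ K] {A B : K →ₗ[ℝ] K}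
    (hA : A.IsSymmetric) (hB : B.IsSymmetric)
    (pA : ∀ k, 0 ≤ inner ℝ k (A k)) (pB : ∀ k, 0 ≤ inner ℝ k (B k)) {θ : ℝ} (hθ : 0 < θ)
    {m : K → ℝ} (hm1 : ∀ k, m k ≤ ‖k‖ ^ 2)
    (hm : ∀ k k' l', 2 * inner ℝ k (A k') + 2 * inner ℝ k (B l') - inner ℝ k' (A k')
      - inner ℝ l' (B l') - 2 * inner ℝ (A k') (B l') ≤ m k)
    (hD : ∀ k, (‖k‖ ^ 2 - inner ℝ k (A k)) + (‖k‖ ^ 2 - inner ℝ k (B k))
      - θ * (‖k‖ ^ 2 + (‖k‖ ^ 2 - m k)) ≤ 0) {ζ : K} {mX : ℝ}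
    (hmX : ∀ k' l', 2 * inner ℝ ζ (A k') - inner ℝ k' (A k') - inner ℝ l' (B l')
      + 2 * inner ℝ (A k') (B l') ≤ mX) :
    inner ℝ ζ (A ζ) ≤ θ * mX := by
  rcases subsingleton_or_nontrivial K with hs | hs
  · have h0 := hmX 0 0
    simp only [map_zero, inner_zero_right] at h0
    have : ζ = 0 := Subsingleton.elim _ _
    rw [this]; simp only [inner_zero_left]
    have h1 : 0 ≤ mX := by linarith
    positivity
  · exact LOC.mmse_of_HE pA pB hθ (LOC.HE_tau hA hB pA pB hθ hm1 hm hD) hmX
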