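import Mathlib

set_option autoImplicit false

/-!
# The exact second difference of the entropy
-/

namespace LOC

open MeasureTheory Real

/-- `η(t) = (1+t) log (1+t) + (1-t) log (1-t)`. -/
noncomputable def etaF (t : ℝ) : ℝ := (1 + t) * log (1 + t) + (1 - t) * log (1 - t)

/-- Exact pointwise second difference (no positivity of `p` needed). -/
theorem negMulLog_second_diff (p x : ℝ) :
    negMulLog (p * (1 + x)) + negMulLog (p * (1 - x)) = 2 * negMulLog p - p * etaF x := by
  rw [negMulLog_mul, negMulLog_mul]
  simp only [negMulLog, etaF]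
  ring

theorem etaF_neg (t : ℝ) : etaF (-t) = etaF t := by
  simp only [etaF]; ring_nf

theorem etaF_zero : etaF 0 = 0 := by simp [etaF]

private theorem hasDerivAt_etaF {t : ℝ} (h1 : -1 < t) (h2 : t < 1) :
    HasDerivAt etaF (log (1 + t) - log (1 - t)) t := by
  have a1 : (1 : ℝ) + t ≠ 0 := by linarith
  have a2 : (1 : ℝ) - t ≠ 0 := by linarith
  have d1 : HasDerivAt (fun s : ℝ => 1 + s) 1 t := by simpa using (hasDerivAt_id t).const_add 1
  have d2 : HasDerivAt (fun s : ℝ => 1 - s) (-1) t := by simpa using (hasDerivAt_id t).const_sub 1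
  have e1 := d1.mul (d1.log a1)
  have e2 := d2.mul (d2.log a2)
  have e := e1.add e2
  refine e.congr_deriv ?_
  field_simp
  ring

/-- `t² ≤ η(t)` for `|t| < 1`. -/
theorem sq_le_etaF {t : ℝ} (ht : |t| < 1) : t ^ 2 ≤ etaF t := by
  wlog h0 : 0 ≤ t with H
  · have := H (t := -t) (by rwa [abs_neg]) (by linarith)
    rwa [etaF_neg, neg_sq] at this
  have ht1 : t < 1 := (abs_lt.1 ht).2
  -- g = η - s^2, g' = log(1+s) - log(1-s) - 2 s ≥ 0
  have hmono : MonotoneOn (fun s => etaF s - s ^ 2) (Set.Icc 0 t) := by
    refine monotoneOn_of_deriv_nonneg (convex_Icc 0 t) ?_ ?_ ?_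
    · intro s hs
      have := hasDerivAt_etaF (t := s) (by linarith [hs.1]) (by linarith [hs.2])
      exact (this.sub ((hasDerivAt_id s).pow 2)).continuousAt.continuousWithinAt
    · intro s hs
      rw [interior_Icc] at hs
      have := hasDerivAt_etaF (t := s) (by linarith [hs.1]) (by linarith [hs.2])
      exact (this.sub ((hasDerivAt_id s).pow 2)).differentiableAt.differentiableWithinAt
    · intro s hs
      rw [interior_Icc] at hs
      have := hasDerivAt_etaF (t := s) (by linarith [hs.1]) (by linarith [hs.2])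
      have hd : deriv (fun s => etaF s - s ^ 2) s = log (1 + s) - log (1 - s) - 2 * s := by
        have h := (this.sub ((hasDerivAt_id s).pow 2))
        have h' : HasDerivAt (fun s => etaF s - s ^ 2) (log (1 + s) - log (1 - s) - 2 * s) s := by
          refine h.congr_deriv ?_
          simp
        exact h'.deriv
      rw [hd]
      -- log((1+s)/(1-s)) ≥ 2s
      have hs0 := hs.1
      have hs1 : s < 1 := by linarith [hs.2]
      have h2 : log (1 + s) - log (1 - s) = log ((1 + s) / (1 - s)) := by
        rw [log_div (by linarith) (by linarith)]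
      have hsum := hasSum_log_sub_log_of_abs_lt_one (x := s) (by rw [abs_of_pos hs0]; exact hs1)
      have := hsum.tsum_eq
      have hle : 2 * s ≤ log (1 + s) - log (1 - s) := by
        rw [← this]
        have := hsum.summable.sum_le_tsum {0} (fun k _ => by positivity)
        simpa using this
      linarith
  have := hmono (Set.left_mem_Icc.2 h0) (Set.right_mem_Icc.2 h0) h0
  simp only [etaF_zero] at this
  linarith

/-- `η(t) ≤ t² + t⁴` for `|t| ≤ 1/2`. -/
theorem etaF_le {t : ℝ} (ht : |t| ≤ 1 / 2) : etaF t ≤ t ^ 2 + t ^ 4 := by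
  wlog h0 : 0 ≤ t with H
  · have := H (t := -t) (by rwa [abs_neg]) (by linarith)
    rw [etaF_neg] at this
    nlinarith
  have ht1 : t ≤ 1 / 2 := (abs_le.1 ht).2
  have hmono : MonotoneOn (fun s => s ^ 2 + s ^ 4 - etaF s) (Set.Icc 0 t) := by
    have key : ∀ s ∈ Set.Icc (0 : ℝ) t, HasDerivAt (fun s => s ^ 2 + s ^ 4 - etaF s)
        (2 * s + 4 * s ^ 3 - (log (1 + s) - log (1 - s))) s := by
      intro s hs
      have := hasDerivAt_etaF (t := s) (by linarith [hs.1]) (by linarith [hs.2])
      have h := (((hasDerivAt_id s).pow 2).add ((hasDerivAt_id s).pow 4)).sub this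
      refine h.congr_deriv ?_
      simp
    have key2 : ∀ s ∈ Set.Icc (0 : ℝ) t, HasDerivAt
        (fun s => 2 * s + 4 * s ^ 3 - (log (1 + s) - log (1 - s)))
        (2 + 12 * s ^ 2 - 2 / (1 - s ^ 2)) s := by
      intro s hs
      have a1 : (1 : ℝ) + s ≠ 0 := by linarith [hs.1]
      have a2 : (1 : ℝ) - s ≠ 0 := by linarith [hs.2]
      have a3 : (1 : ℝ) - s ^ 2 ≠ 0 := by
        have : (1 : ℝ) - s ^ 2 = (1 + s) * (1 - s) := by ring
        rw [this]; exact mul_ne_zero a1 a2
      have d1 : HasDerivAt (fun s : ℝ => 1 + s) 1 s := by simpa using (hasDerivAt_id s).const_add 1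
      have d2 : HasDerivAt (fun s : ℝ => 1 - s) (-1) s := by
        simpa using (hasDerivAt_id s).const_sub 1
      have e := (((hasDerivAt_id s).const_mul 2).add (((hasDerivAt_id s).pow 3).const_mul 4)).sub
        ((d1.log a1).sub (d2.log a2))
      refine e.congr_deriv ?_
      simp only [id]
      field_simp
      ring
    have hmono2 : MonotoneOn (fun s => 2 * s + 4 * s ^ 3 - (log (1 + s) - log (1 - s)))
        (Set.Icc 0 t) := by
      refine monotoneOn_of_deriv_nonneg (convex_Icc 0 t)
        (fun s hs => (key2 s hs).continuousAt.continuousWithinAt)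
        (fun s hs => (key2 s (interior_subset hs)).differentiableAt.differentiableWithinAt) ?_
      intro s hs
      have hs' := interior_subset hs
      rw [(key2 s hs').deriv]
      have hs2 : s ^ 2 ≤ 1 / 4 := by nlinarith [hs'.1, hs'.2]
      have hpos : 0 < 1 - s ^ 2 := by linarith
      rw [sub_nonneg, div_le_iff₀ hpos]
      nlinarith [sq_nonneg s]
    refine monotoneOn_of_deriv_nonneg (convex_Icc 0 t)
        (fun s hs => (key s hs).continuousAt.continuousWithinAt)
        (fun s hs => (key s (interior_subset hs)).differentiableAt.differentiableWithinAt) ?_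
    intro s hs
    have hs' := interior_subset hs
    rw [(key s hs').deriv]
    have := hmono2 (Set.left_mem_Icc.2 h0) hs' hs'.1
    simpa using this
  have := hmono (Set.left_mem_Icc.2 h0) (Set.right_mem_Icc.2 h0) h0
  simp only [etaF_zero] at this
  linarith

theorem etaF_nonneg {t : ℝ} (ht : |t| < 1) : 0 ≤ etaF t := (sq_nonneg t).trans (sq_le_etaF ht)

theorem measurable_etaF : Measurable etaF := by
  unfold etaF
  fun_prop

section Tilt

variable {α : Type*} [MeasurableSpace α] {μ : Measure α}

/-- Exact second difference: `f` integrable with integrable `f log f`, `r` bounded by `M`,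
`|t| M ≤ 1/2`. -/
theorem tilt_integrable {f r : α → ℝ} (hf : Integrable f μ)
    (hfl : Integrable (fun x => negMulLog (f x)) μ) (hr : AEStronglyMeasurable r μ) {M t : ℝ}
    (hM : ∀ x, |r x| ≤ M) (ht : |t| * M ≤ 1 / 2) :
    Integrable (fun x => negMulLog (f x * (1 + t * r x))) μ := by
  have e : (fun x => negMulLog (f x * (1 + t * r x)))
      = fun x => (1 + t * r x) * negMulLog (f x) + (negMulLog (1 + t * r x)) * f x := by
    funext x; rw [negMulLog_mul]; ring
  rw [e]
  have hb : ∀ x, |t * r x| ≤ 1 / 2 := fun x => by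
    rw [abs_mul]
    exact (mul_le_mul_of_nonneg_left (hM x) (abs_nonneg t)).trans ht
  have hm : AEStronglyMeasurable (fun x => 1 + t * r x) μ :=
    aestronglyMeasurable_const.add (hr.const_mul t)
  refine Integrable.add ?_ ?_
  · refine hfl.bdd_mul (c := 2) hm (Filter.Eventually.of_forall fun x => ?_)
    have := abs_le.1 (hb x)
    rw [Real.norm_eq_abs, abs_le]; constructor <;> linarith
  · refine hf.bdd_mul (c := 2) ?_ (Filter.Eventually.of_forall fun x => ?_)
    · exact (continuous_negMulLog.measurable.comp_aemeasurable hm.aemeasurable).aestronglyMeasurable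
    · have hx := abs_le.1 (hb x)
      have h1 : 0 ≤ 1 + t * r x := by linarith
      have h2 : 1 + t * r x ≤ 2 := by linarith
      rw [Real.norm_eq_abs, abs_le]
      constructor
      · have hl : log (1 + t * r x) ≤ 1 + t * r x - 1 := log_le_sub_one_of_pos (by linarith)
        simp only [negMulLog]
        nlinarith
      · have := negMulLog_le_one_sub_self h1
        linarith

theorem tilt_exact {f r : α → ℝ} (hf : Integrable f μ)
    (hfl : Integrable (fun x => negMulLog (f x)) μ) (hr : AEStronglyMeasurable r μ) {M t : ℝ}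
    (hM : ∀ x, |r x| ≤ M) (ht : |t| * M ≤ 1 / 2) :
    (∫ x, negMulLog (f x * (1 + t * r x)) ∂μ) + (∫ x, negMulLog (f x * (1 - t * r x)) ∂μ)
      = 2 * (∫ x, negMulLog (f x) ∂μ) - ∫ x, f x * etaF (t * r x) ∂μ := by
  have h1 := tilt_integrable hf hfl hr hM ht
  have h2 := tilt_integrable hf hfl hr (t := -t) hM (by rwa [abs_neg])
  have e2 : (fun x => negMulLog (f x * (1 + -t * r x)))
      = fun x => negMulLog (f x * (1 - t * r x)) := by
    funext x; congr 2; ring
  rw [e2] at h2
  rw [← integral_add h1 h2]
  have h3 : Integrable (fun x => f x * etaF (t * r x)) μ := by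
    have : (fun x => f x * etaF (t * r x)) = fun x => 2 * negMulLog (f x)
        - (negMulLog (f x * (1 + t * r x)) + negMulLog (f x * (1 - t * r x))) := by
      funext x; rw [negMulLog_second_diff]; ring
    rw [this]
    exact (hfl.const_mul 2).sub (h1.add h2)
  rw [← integral_const_mul, ← integral_sub (hfl.const_mul 2) h3]
  refine integral_congr_ae (Filter.Eventually.of_forall fun x => ?_)
  exact negMulLog_second_diff _ _

/-- Two sided bound for the error term. -/
theorem tilt_bounds {f r : α → ℝ} (hf0 : ∀ x, 0 ≤ f x) (hf : Integrable f μ)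
    (hr : AEStronglyMeasurable r μ) {M t : ℝ}
    (hM : ∀ x, |r x| ≤ M) (ht : |t| * M ≤ 1 / 2) :
    t ^ 2 * (∫ x, f x * r x ^ 2 ∂μ) ≤ ∫ x, f x * etaF (t * r x) ∂μ ∧
    (∫ x, f x * etaF (t * r x) ∂μ) ≤
      t ^ 2 * (∫ x, f x * r x ^ 2 ∂μ) + t ^ 4 * M ^ 4 * ∫ x, f x ∂μ := by
  have hb : ∀ x, |t * r x| ≤ 1 / 2 := fun x => by
    rw [abs_mul]
    exact (mul_le_mul_of_nonneg_left (hM x) (abs_nonneg t)).trans ht
  have hr2 : Integrable (fun x => f x * r x ^ 2) μ := by
    have := hf.bdd_mul (c := M ^ 2) (hr.pow 2) (Filter.Eventually.of_forall fun x => by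
      simp only [Pi.pow_apply]
      rw [Real.norm_eq_abs, abs_pow]
      exact pow_le_pow_left₀ (abs_nonneg _) (hM x) 2)
    refine this.congr (Filter.Eventually.of_forall fun x => ?_)
    simp only [Pi.pow_apply]; ring
  have heta : Integrable (fun x => f x * etaF (t * r x)) μ := by
    have := hf.bdd_mul (c := 1) (f := fun x => etaF (t * r x))
      (measurable_etaF.comp_aemeasurable (hr.const_mul t).aemeasurable).aestronglyMeasurable
      (Filter.Eventually.of_forall fun x => by
        have h1 := etaF_nonneg (t := t * r x) (lt_of_le_of_lt (hb x) (by norm_num))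
        have h2 := etaF_le (hb x)
        rw [Real.norm_eq_abs, abs_of_nonneg h1]
        have h3 : (t * r x) ^ 2 ≤ 1 / 4 := by
          have := abs_le.1 (hb x)
          nlinarith
        nlinarith)
    refine this.congr (Filter.Eventually.of_forall fun x => ?_)
    ring
  constructor
  · rw [← integral_const_mul]
    refine integral_mono (hr2.const_mul _) heta fun x => ?_
    have := sq_le_etaF (t := t * r x) (lt_of_le_of_lt (hb x) (by norm_num))
    have := mul_le_mul_of_nonneg_left this (hf0 x)
    calc t ^ 2 * (f x * r x ^ 2) = f x * (t * r x) ^ 2 := by ring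
      _ ≤ _ := this
  · rw [← integral_const_mul, ← integral_const_mul, ← integral_add (hr2.const_mul _)
      (hf.const_mul _)]
    refine integral_mono heta ((hr2.const_mul _).add (hf.const_mul _)) fun x => ?_
    have h1 := mul_le_mul_of_nonneg_left (etaF_le (hb x)) (hf0 x)
    have h2 : r x ^ 4 ≤ M ^ 4 := by
      have := pow_le_pow_left₀ (abs_nonneg _) (hM x) 4
      rwa [← abs_pow, abs_of_nonneg (by positivity)] at this
    have h3 : t ^ 4 * r x ^ 4 ≤ t ^ 4 * M ^ 4 := mul_le_mul_of_nonneg_left h2 (by positivity)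
    calc f x * etaF (t * r x) ≤ f x * ((t * r x) ^ 2 + (t * r x) ^ 4) := h1
      _ = t ^ 2 * (f x * r x ^ 2) + f x * (t ^ 4 * r x ^ 4) := by ring
      _ ≤ t ^ 2 * (f x * r x ^ 2) + f x * (t ^ 4 * M ^ 4) := by
          have := mul_le_mul_of_nonneg_left h3 (hf0 x)
          linarith
      _ = _ := by ring

end Tilt

end LOC
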