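import Mathlib

/-!
Finite groups of exponent eight in which all elements outside a normal subgroup of index `2^r`
have order dividing four.
-/

set_option autoImplicit false
set_option linter.unusedVariables false
set_option linter.unusedSectionVars false

namespace Pool.Agent.ExpFour

open Finset

/-- The lift `0 ↦ 0`, `1 ↦ 1`. -/
def lift2 (a : ZMod 2) : ZMod 4 := if a = 0 then 0 else 1

theorem lift2_cocycle : ∀ a b c : ZMod 2,
    lift2 (a * b) + lift2 ((a + b) * c) = lift2 (b * c) + lift2 (a * (b + c)) := by decide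

theorem lift2_two_add : ∀ a b : ZMod 2, 2 * lift2 (a + b) = 2 * lift2 a + 2 * lift2 b := by decide

theorem lift2_zero : lift2 0 = 0 := by decide

section
variable (H : Type) [Fintype H]

/-- an injective labelling of a finite type by natural numbers -/
noncomputable def lab (h : H) : ℕ := (Fintype.equivFin H h : ℕ)

theorem lab_inj : Function.Injective (lab H) := by
  intro a b h
  exact (Fintype.equivFin H).injective (Fin.ext h)

variable {H}

/-- The cocycle. -/
noncomputable def phi (S T : H → ZMod 2) : ZMod 4 :=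
  ∑ h, lift2 (S h * T h) + ∑ h, ∑ k, if lab H k < lab H h then 2 * lift2 (S h * T k) else 0

theorem phi_zero_left (T : H → ZMod 2) : phi 0 T = 0 := by
  unfold phi
  simp [lift2_zero]

theorem phi_zero_right (S : H → ZMod 2) : phi S 0 = 0 := by
  unfold phi
  simp [lift2_zero]

theorem phi_cocycle (S T U : H → ZMod 2) :
    phi S T + phi (S + T) U = phi T U + phi S (T + U) := by
  unfold phi
  have h1 : ∑ h, lift2 (S h * T h) + ∑ h, lift2 ((S + T) h * U h)
      = ∑ h, lift2 (T h * U h) + ∑ h, lift2 (S h * (T + U) h) := by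
    rw [← sum_add_distrib, ← sum_add_distrib]
    refine sum_congr rfl fun h _ => ?_
    simp only [Pi.add_apply]
    exact lift2_cocycle _ _ _
  have h2 : (∑ h, ∑ k, if lab H k < lab H h then 2 * lift2 (S h * T k) else 0)
        + (∑ h, ∑ k, if lab H k < lab H h then 2 * lift2 ((S + T) h * U k) else 0)
      = (∑ h, ∑ k, if lab H k < lab H h then 2 * lift2 (T h * U k) else 0)
        + ∑ h, ∑ k, if lab H k < lab H h then 2 * lift2 (S h * (T + U) k) else 0 := by
    rw [← sum_add_distrib, ← sum_add_distrib]
    refine sum_congr rfl fun h _ => ?_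
    rw [← sum_add_distrib, ← sum_add_distrib]
    refine sum_congr rfl fun k _ => ?_
    split_ifs with hlt
    · simp only [Pi.add_apply, add_mul, mul_add, lift2_two_add]
      ring
    · simp
  linear_combination h1 + h2

/-- The extension of `(ZMod 2)^H` by `ZMod 4`. -/
@[ext]
structure KK (H : Type) where
  S : H → ZMod 2
  j : ZMod 4

noncomputable instance : Mul (KK H) := ⟨fun a b => ⟨a.S + b.S, a.j + b.j + phi a.S b.S⟩⟩
instance : One (KK H) := ⟨⟨0, 0⟩⟩
noncomputable instance : Inv (KK H) := ⟨fun a => ⟨a.S, - a.j - phi a.S a.S⟩⟩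

theorem KK.mul_S (a b : KK H) : (a * b).S = a.S + b.S := rfl
theorem KK.mul_j (a b : KK H) : (a * b).j = a.j + b.j + phi a.S b.S := rfl
theorem KK.one_S : (1 : KK H).S = 0 := rfl
theorem KK.one_j : (1 : KK H).j = 0 := rfl
theorem KK.inv_S (a : KK H) : (a⁻¹).S = a.S := rfl
theorem KK.inv_j (a : KK H) : (a⁻¹).j = - a.j - phi a.S a.S := rfl

theorem add_self_zero (S : H → ZMod 2) : S + S = 0 := by
  funext h
  have : ∀ a : ZMod 2, a + a = 0 := by decide
  exact this _

noncomputable instance : Group (KK H) :=
  Group.ofLeftAxioms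
    (by
      intro a b c
      ext1
      · simp only [KK.mul_S, add_assoc]
      · simp only [KK.mul_S, KK.mul_j]
        have := phi_cocycle a.S b.S c.S
        linear_combination this)
    (by
      intro a
      ext1
      · simp only [KK.mul_S, KK.one_S, zero_add]
      · simp only [KK.mul_j, KK.one_S, KK.one_j, phi_zero_left, zero_add, add_zero])
    (by
      intro a
      ext1
      · simp only [KK.mul_S, KK.inv_S, KK.one_S]; exact add_self_zero _
      · simp only [KK.mul_j, KK.inv_S, KK.inv_j, KK.one_j]; ring)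

instance : Finite (KK H) := by
  apply Finite.of_injective (fun a : KK H => (a.S, a.j))
  intro a b h
  ext1
  · exact congrArg Prod.fst h
  · exact congrArg Prod.snd h

/-- number of elements of a set, as an integer modulo four -/
theorem phi_self (U : H → ZMod 2) : phi U U = (∑ h, lift2 (U h)) ^ 2 := by
  have hm : ∀ a b : ZMod 2, lift2 (a * b) = lift2 a * lift2 b := by decide
  have hs : ∀ a : ZMod 2, lift2 a * lift2 a = lift2 a := by decide
  unfold phi
  have e1 : ∑ h, lift2 (U h * U h) = ∑ h, lift2 (U h) := by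
    refine sum_congr rfl fun h _ => ?_
    rw [hm, hs]
  have e2 : (∑ h, ∑ k, if lab H k < lab H h then 2 * lift2 (U h * U k) else 0)
      = (∑ h, ∑ k, if lab H k < lab H h then lift2 (U h) * lift2 (U k) else 0)
        + ∑ h, ∑ k, if lab H h < lab H k then lift2 (U h) * lift2 (U k) else 0 := by
    have : (∑ h, ∑ k, if lab H h < lab H k then lift2 (U h) * lift2 (U k) else 0)
        = ∑ h, ∑ k, if lab H k < lab H h then lift2 (U h) * lift2 (U k) else 0 := by
      rw [sum_comm]
      refine sum_congr rfl fun h _ => sum_congr rfl fun k _ => ?_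
      rw [mul_comm]
    rw [this, ← sum_add_distrib]
    refine sum_congr rfl fun h _ => ?_
    rw [← sum_add_distrib]
    refine sum_congr rfl fun k _ => ?_
    split_ifs
    · rw [hm]; ring
    · simp
  have e3 : (∑ h, lift2 (U h)) ^ 2 = ∑ h, ∑ k, lift2 (U h) * lift2 (U k) := by
    rw [pow_two, sum_mul_sum]
  have e4 : ∑ h, ∑ k, lift2 (U h) * lift2 (U k) = ∑ h, lift2 (U h)
      + ((∑ h, ∑ k, if lab H k < lab H h then lift2 (U h) * lift2 (U k) else 0)
        + ∑ h, ∑ k, if lab H h < lab H k then lift2 (U h) * lift2 (U k) else 0) := by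
    classical
    have e5 : ∑ h, lift2 (U h) = ∑ h, ∑ k, if k = h then lift2 (U h) * lift2 (U k) else 0 := by
      refine sum_congr rfl fun h _ => ?_
      rw [sum_ite_eq']
      simp [hs]
    rw [e5, ← sum_add_distrib, ← sum_add_distrib]
    refine sum_congr rfl fun h _ => ?_
    rw [← sum_add_distrib, ← sum_add_distrib]
    refine sum_congr rfl fun k _ => ?_
    by_cases hk : k = h
    · subst hk; simp
    · have hne : lab H k ≠ lab H h := fun h' => hk (lab_inj H h')
      rcases lt_or_gt_of_ne hne with hlt | hlt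
      · rw [if_neg hk, if_pos hlt, if_neg (by omega)]; simp
      · rw [if_neg hk, if_neg (by omega), if_pos hlt]; simp
  rw [e1, e2, e3, e4]

end

section

variable {H : Type} [Fintype H] [CommGroup H]

/-- the residue class modulo two of an element of `ZMod 4` -/
def par : ZMod 4 →+* ZMod 2 := ZMod.castHom (by norm_num) (ZMod 2)

theorem par_lift2 : ∀ a : ZMod 2, par (lift2 a) = a := by decide

theorem par_two_mul (a : ZMod 4) : par (2 * a) = 0 := by
  rw [map_mul]
  have : par 2 = 0 := by decide
  rw [this, zero_mul]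

theorem par_phi (S T : H → ZMod 2) : par (phi S T) = ∑ h, S h * T h := by
  unfold phi
  rw [map_add, map_sum, map_sum]
  have h2 : ∑ h, par (∑ k, if lab H k < lab H h then 2 * lift2 (S h * T k) else 0) = 0 := by
    apply sum_eq_zero
    intro h _
    rw [map_sum]
    apply sum_eq_zero
    intro k _
    split_ifs
    · exact par_two_mul _
    · exact map_zero _
  rw [h2, add_zero]
  exact sum_congr rfl fun h _ => par_lift2 _

/-- `2 * phi` only sees the intersection. -/
theorem two_phi (S T : H → ZMod 2) : 2 * phi S T = 2 * ∑ h, lift2 (S h * T h) := by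
  unfold phi
  have h2 : 2 * (∑ h, ∑ k, if lab H k < lab H h then 2 * lift2 (S h * T k) else 0) = 0 := by
    rw [mul_sum]
    apply sum_eq_zero
    intro h _
    rw [mul_sum]
    apply sum_eq_zero
    intro k _
    split_ifs
    · have : ∀ a : ZMod 4, 2 * (2 * a) = 0 := by decide
      exact this _
    · simp
  rw [mul_add, h2, add_zero]

/-- Sum over a free involution-invariant function is even. -/
theorem even_of_involution (m : H) (hm : m ≠ 1) (hm2 : m * m = 1) (F : H → ZMod 2)
    (hF : ∀ h, F (m * h) = F h) : 2 * ∑ h, lift2 (F h) = 0 := by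
  classical
  have h1 : ∑ h, 2 * lift2 (F h) = 0 := by
    apply Finset.sum_involution (fun h _ => m * h)
    · intro h _
      rw [hF]
      have : ∀ a : ZMod 4, 2 * a + 2 * a = 0 := by decide
      exact this _
    · intro h _ _ heq
      exact hm (mul_eq_right.mp heq)
    · intro h _
      exact mem_univ _
    · intro h _
      rw [← mul_assoc, hm2, one_mul]
  rw [mul_sum]
  exact h1

/-- The subgroup of the wreath product. -/
noncomputable def GG (H : Type) [Fintype H] [CommGroup H] :
    Subgroup (RegularWreathProduct (KK H) H) where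
  carrier := {w | (∃ S : H → ZMod 2, ∀ x h, (w.left x).S h = S (x * h)) ∧
    ∃ ε : ZMod 2, ∀ x, par (w.left x).j = ε}
  mul_mem' := by
    rintro a b ⟨⟨S, hS⟩, ⟨ε, hε⟩⟩ ⟨⟨T, hT⟩, ⟨δ, hδ⟩⟩
    refine ⟨⟨fun y => S y + T (a.right⁻¹ * y), ?_⟩, ⟨ε + δ + ∑ y, S y * T (a.right⁻¹ * y), ?_⟩⟩
    · intro x h
      rw [RegularWreathProduct.mul_left, Pi.mul_apply, KK.mul_S, Pi.add_apply, hS, hT, mul_assoc]
    · intro x
      rw [RegularWreathProduct.mul_left, Pi.mul_apply, KK.mul_j, map_add, map_add, hε, hδ, par_phi]
      congr 1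
      have : ∑ h, (a.left x).S h * (b.left (a.right⁻¹ * x)).S h
          = ∑ h, S (x * h) * T (a.right⁻¹ * (x * h)) := by
        refine sum_congr rfl fun h _ => ?_
        rw [hS, hT, mul_assoc]
      rw [this]
      exact Equiv.sum_comp (Equiv.mulLeft x) (fun y => S y * T (a.right⁻¹ * y))
  one_mem' := ⟨⟨0, fun x h => rfl⟩, ⟨0, fun x => by
    show par 0 = 0
    exact map_zero _⟩⟩
  inv_mem' := by
    rintro a ⟨⟨S, hS⟩, ⟨ε, hε⟩⟩
    refine ⟨⟨fun y => S (a.right * y), ?_⟩, ⟨- ε - ∑ y, S y * S y, ?_⟩⟩
    · intro x h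
      rw [RegularWreathProduct.inv_left]
      simp only [Pi.inv_apply]
      rw [KK.inv_S, hS, mul_assoc]
    · intro x
      rw [RegularWreathProduct.inv_left]
      simp only [Pi.inv_apply]
      rw [KK.inv_j, map_sub, map_neg, hε, par_phi]
      congr 1
      have : ∑ h, (a.left (a.right * x)).S h * (a.left (a.right * x)).S h
          = ∑ h, S (a.right * x * h) * S (a.right * x * h) := by
        refine sum_congr rfl fun h _ => ?_
        rw [hS]
      rw [this]
      exact Equiv.sum_comp (Equiv.mulLeft (a.right * x)) (fun y => S y * S y)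

/-- The key computation in `KK`. -/
theorem KK_key (m : H) (hm : m ≠ 1) (hm2 : m * m = 1) (S : H → ZMod 2) (x : H) (a b : KK H)
    (ha : ∀ h, a.S h = S (x * h)) (hb : ∀ h, b.S h = S (m * x * h))
    (hab : par a.j = par b.j) : (a * b) * (a * b) = 1 := by
  have hsum : 2 * (a.j + b.j) = 0 := by
    have : ∀ p q : ZMod 4, par p = par q → 2 * (p + q) = 0 := by decide
    exact this _ _ hab
  have hinter : 2 * ∑ h, lift2 (a.S h * b.S h) = 0 := by
    apply even_of_involution m hm hm2
    intro h
    rw [ha, hb, ha, hb]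
    have e1 : x * (m * h) = m * x * h := by rw [mul_left_comm, mul_assoc]
    have e2 : m * x * (m * h) = x * h := by
      calc m * x * (m * h) = (m * m) * (x * h) := by
            rw [mul_mul_mul_comm]
        _ = x * h := by rw [hm2, one_mul]
    rw [e1, e2, mul_comm]
  have hsymm : (∑ h, lift2 ((a.S + b.S) h)) ^ 2 = 0 := by
    have e : 2 * ∑ h, lift2 ((a.S + b.S) h) = 0 := by
      apply even_of_involution m hm hm2
      intro h
      simp only [Pi.add_apply]
      rw [ha, hb, ha, hb]
      have e1 : x * (m * h) = m * x * h := by rw [mul_left_comm, mul_assoc]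
      have e2 : m * x * (m * h) = x * h := by
        calc m * x * (m * h) = (m * m) * (x * h) := by
              rw [mul_mul_mul_comm]
          _ = x * h := by rw [hm2, one_mul]
      rw [e1, e2, add_comm]
    have : ∀ p : ZMod 4, 2 * p = 0 → p ^ 2 = 0 := by decide
    exact this _ e
  ext1
  · simp only [KK.mul_S, KK.one_S]; exact add_self_zero _
  · have e : ((a * b) * (a * b)).j = 2 * (a.j + b.j) + 2 * phi a.S b.S
        + phi (a.S + b.S) (a.S + b.S) := by
      simp only [KK.mul_j, KK.mul_S]; ring
    rw [e, hsum, two_phi, hinter, phi_self, hsymm]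
    rfl

/-- Elements outside the base have order dividing four. -/
theorem GG_pow_four (w : RegularWreathProduct (KK H) H) (hw : w ∈ GG H)
    (h2 : w.right * w.right = 1) (h1 : w.right ≠ 1) : w ^ 4 = 1 := by
  obtain ⟨⟨S, hS⟩, ⟨ε, hε⟩⟩ := hw
  have hinv : w.right⁻¹ = w.right := inv_eq_of_mul_eq_one_left h2
  have e4 : w ^ 4 = (w * w) * (w * w) := by rw [pow_succ, pow_succ, pow_two]; group
  rw [e4]
  apply RegularWreathProduct.ext
  · funext x
    simp only [RegularWreathProduct.mul_left, RegularWreathProduct.mul_right, Pi.mul_apply, h2,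
      inv_one, one_mul, hinv]
    refine KK_key w.right h1 h2 S x _ _ (fun h => hS x h) (fun h => hS _ h) ?_
    rw [hε, hε]
  · simp only [RegularWreathProduct.mul_right, h2, mul_one]
    rfl

/-- A bad element. -/
theorem GG_bad : ∃ w ∈ GG H, w ^ 4 ≠ 1 := by
  classical
  let S0 : H → ZMod 2 := fun y => if y = 1 then 1 else 0
  let w : RegularWreathProduct (KK H) H := ⟨fun x => ⟨fun h => S0 (x * h), 0⟩, 1⟩
  refine ⟨w, ⟨⟨S0, fun x h => rfl⟩, ⟨0, fun x => ?_⟩⟩, ?_⟩
  · show par 0 = 0
    exact map_zero _
  · intro h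
    have e4 : w ^ 4 = (w * w) * (w * w) := by rw [pow_succ, pow_succ, pow_two]; group
    rw [e4] at h
    have h1 := congrArg (fun z : RegularWreathProduct (KK H) H => (z.left 1).j) h
    simp only [RegularWreathProduct.mul_left, RegularWreathProduct.mul_right, Pi.mul_apply] at h1
    have hr : w.right = 1 := rfl
    rw [hr] at h1
    simp only [inv_one, one_mul, mul_one] at h1
    have hj : (w.left 1).j = 0 := rfl
    have hS : (w.left 1).S = fun h => S0 h := by
      funext h
      show S0 (1 * h) = S0 h
      rw [one_mul]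
    have hsum : ∑ h, lift2 (S0 h) = 1 := by
      have : ∀ h : H, lift2 (S0 h) = if h = 1 then 1 else 0 := by
        intro h
        by_cases hh : h = 1
        · simp only [S0, if_pos hh]; decide
        · simp only [S0, if_neg hh]; decide
      rw [sum_congr rfl (fun h _ => this h), sum_ite_eq']
      simp
    have e : ((w.left 1 * w.left 1) * (w.left 1 * w.left 1)).j
        = 2 * (2 * (w.left 1).j) + 2 * phi (w.left 1).S (w.left 1).S
          + phi ((w.left 1).S + (w.left 1).S) ((w.left 1).S + (w.left 1).S) := by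
      simp only [KK.mul_j, KK.mul_S]; ring
    rw [e, hj, add_self_zero, phi_zero_left, hS, phi_self, hsum] at h1
    have : (2 * (2 * 0) + 2 * 1 ^ 2 + 0 : ZMod 4) ≠ 0 := by decide
    exact this h1

end

end Pool.Agent.ExpFour
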